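import Pool.Agent.H158.GM.Kern

set_option autoImplicit false

/-! The comparison with a Riesz product for a general function. -/

namespace Pool.Agent.H158.GL

open Filter Topology Set MeasureTheory Complex
open Pool.Agent.W263.BSD Pool.Agent.Y853.HM Pool.Agent.H198.GM Pool.Agent.H158.GM

/-- the Laplace transform near the critical line, at many points, under a one-sided pointwise bound -/
theorem sidedG {F : ℝ → ℝ} {K Y δ η : ℝ} (hK : 0 ≤ K) (hY : 0 ≤ Y) (hδ : 0 < δ) (hη0 : 0 ≤ η) (hη1 : η ≤ 1)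
    (hF : LInt F (1 / 2 + δ)) (hbound : ∀ v : ℝ, 0 < v → F v * Real.exp (-(v / 2)) ≤ K + Y * (1 + η * (δ * v)) ^ 2)
    (S : Finset ℝ) {η' Q : ℝ} (hη' : 0 < η')
    (hδη : δ ≤ η') (h0 : ∀ t ∈ S, t ∈ W 1 S) (h12 : ∀ x ∈ W 2 S, x ∈ W 1 S) (hQ0 : 0 ≤ Q)
    (hW1 : ∀ x ∈ W 1 S, η' ≤ |x|) (hW2 : ∀ x ∈ W 2 S, ‖lapC F (pt x + δ)‖ ≤ Q) :
    δ * lap F (1 / 2 + δ) + δ * ∑ t ∈ S, ‖lapC F (pt t + δ)‖ ≤ K + Y * (1 + 2 * η + 2 * η ^ 2) +
      δ * (2 ^ (S.card + 1) * ((K + 5 * Y) / η')) + δ * (2 ^ S.card * Q) := by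
  obtain ⟨Ψ, hΨ⟩ : ∃ Ψ : ℝ → ℝ, Ψ = fun v => ((K + Y) * pk 0 v + (2 * Y * η * δ) * pk 1 v) +
      (2 * Y * η ^ 2 * δ ^ 2) * pk 2 v := ⟨_, rfl⟩
  have hΨv : ∀ v, Ψ v = K + Y * (1 + η * (δ * v)) ^ 2 := by
    intro v
    rw [hΨ]
    simp only [pk, pow_zero, Nat.factorial_zero, Nat.cast_one, div_one, mul_one, pow_one, Nat.factorial_one,
      Nat.factorial_two, Nat.cast_ofNat]
    ring
  have hi0 := (pk_LInt 0 hδ).const_mul (K + Y)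
  have hi1 := (pk_LInt 1 hδ).const_mul (2 * Y * η * δ)
  have hi2 := (pk_LInt 2 hδ).const_mul (2 * Y * η ^ 2 * δ ^ 2)
  have hΨi : LInt Ψ δ := by
    rw [hΨ]
    exact (hi0.add hi1).add hi2
  have hΨl : lap Ψ δ = (K + Y) * (1 / δ ^ (0 + 1)) + (2 * Y * η * δ) * (1 / δ ^ (1 + 1)) +
      (2 * Y * η ^ 2 * δ ^ 2) * (1 / δ ^ (2 + 1)) := by
    rw [hΨ]
    have e1 := lap_add (hi0.add hi1) hi2
    have e2 := lap_add hi0 hi1
    rw [lap_const_mul, pk_lap 2 hδ] at e1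
    rw [lap_const_mul, lap_const_mul, pk_lap 0 hδ, pk_lap 1 hδ] at e2
    rw [e2] at e1
    exact e1
  -- the complex Laplace transform of the majorant
  have hΨc : ∀ x ∈ W 1 S, ‖lapC Ψ ((δ : ℂ) + x * I)‖ ≤ (K + 5 * Y) / η' := by
    intro x hx
    have hre : ((δ : ℂ) + x * I).re = δ := by simp
    have him : ((δ : ℂ) + x * I).im = x := by simp
    have hn : η' ≤ ‖(δ : ℂ) + x * I‖ := by
      have := Complex.abs_im_le_norm ((δ : ℂ) + x * I)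
      rw [him] at this
      exact (hW1 x hx).trans this
    have hn0 : 0 < ‖(δ : ℂ) + x * I‖ := lt_of_lt_of_le hη' hn
    rw [hΨ, quad_lapC _ _ _ (by rw [hre]; exact hδ)]
    obtain ⟨z, hz⟩ : ∃ z : ℂ, z = (δ : ℂ) + x * I := ⟨_, rfl⟩
    rw [← hz] at hn hn0 ⊢
    have hδz : δ ≤ ‖z‖ := hδη.trans hn
    have hr : δ / ‖z‖ ≤ 1 := by rw [div_le_one hn0]; exact hδz
    have hr0 : 0 ≤ δ / ‖z‖ := by positivity
    have j0 : ‖((K + Y : ℝ) : ℂ) / z‖ ≤ (K + Y) / η' := by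
      rw [norm_div, Complex.norm_of_nonneg (by positivity)]
      exact div_le_div_of_nonneg_left (by positivity) hη' hn
    have j1 : ‖((2 * Y * η * δ : ℝ) : ℂ) / z ^ 2‖ ≤ 2 * Y / η' := by
      rw [norm_div, norm_pow, Complex.norm_of_nonneg (by positivity)]
      have e : 2 * Y * η * δ / ‖z‖ ^ 2 = 2 * Y * (η * (δ / ‖z‖)) / ‖z‖ := by
        field_simp
      rw [e]
      refine div_le_div₀ (by positivity) ?_ hη' hn
      have : η * (δ / ‖z‖) ≤ 1 := mul_le_one₀ hη1 hr0 hr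
      nlinarith
    have j2 : ‖((2 * Y * η ^ 2 * δ ^ 2 : ℝ) : ℂ) / z ^ 3‖ ≤ 2 * Y / η' := by
      rw [norm_div, norm_pow, Complex.norm_of_nonneg (by positivity)]
      have e : 2 * Y * η ^ 2 * δ ^ 2 / ‖z‖ ^ 3 = 2 * Y * (η ^ 2 * (δ / ‖z‖) ^ 2) / ‖z‖ := by
        field_simp
      rw [e]
      refine div_le_div₀ (by positivity) ?_ hη' hn
      have : η ^ 2 * (δ / ‖z‖) ^ 2 ≤ 1 := mul_le_one₀ (pow_le_one₀ hη0 hη1) (by positivity) (pow_le_one₀ hr0 hr)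
      nlinarith
    calc _ ≤ ‖((K + Y : ℝ) : ℂ) / z‖ + ‖((2 * Y * η * δ : ℝ) : ℂ) / z ^ 2‖ +
          ‖((2 * Y * η ^ 2 * δ ^ 2 : ℝ) : ℂ) / z ^ 3‖ := norm_add₃_le
      _ ≤ (K + Y) / η' + 2 * Y / η' + 2 * Y / η' := by linarith
      _ = _ := by ring
  -- comparison
  have hptw : ∀ x : ℝ, (((1 / 2 + δ : ℝ) : ℂ) + x * I) = pt x + δ := by
    intro x
    unfold pt
    push_cast
    ring
  have hcmp := compareS (F := F) (G := Ψ) hF hΨi (fun v hv => by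
    have h1 : F v * Real.exp (-((1 / 2 + δ) * v)) = F v * Real.exp (-(v / 2)) * Real.exp (-(δ * v)) := by
      rw [mul_assoc, ← Real.exp_add]
      congr 2
      ring
    rw [h1, hΨv]
    exact mul_le_mul_of_nonneg_right (hbound v hv) (Real.exp_pos _).le) S (Q := Q)
    (Q' := (K + 5 * Y) / η') h0 h12 (fun x hx => by rw [hptw]; exact hW2 x hx) hΨc hQ0 (by positivity)
  have hsum : ∑ t ∈ S, ‖lapC F (((1 / 2 + δ : ℝ) : ℂ) + t * I)‖ = ∑ t ∈ S, ‖lapC F (pt t + δ)‖ :=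
    Finset.sum_congr rfl fun t _ => by rw [hptw]
  rw [hsum, hΨl] at hcmp
  have h3 := mul_le_mul_of_nonneg_left hcmp hδ.le
  have h6 : δ * ((K + Y) * (1 / δ ^ (0 + 1)) + (2 * Y * η * δ) * (1 / δ ^ (1 + 1)) +
      (2 * Y * η ^ 2 * δ ^ 2) * (1 / δ ^ (2 + 1))) = K + Y * (1 + 2 * η + 2 * η ^ 2) := by
    field_simp
    ring
  rw [mul_add, mul_add, mul_add, h6] at h3
  linarith

end Pool.Agent.H158.GL
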