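import Pool.Agent.H158.GL.Low
import Pool.Agent.H158.GL.Kern

set_option autoImplicit false

/-! The upper bound for the amplitudes of free ordinates, Liouville sum. -/

namespace Pool.Agent.H158.GL

open Filter Topology Set MeasureTheory Complex
open Pool.Agent.W263.BSD Pool.Agent.Y853.HM Pool.Agent.H198.GM Pool.Agent.H158.GM

theorem lim0 (h : Tra) : ∃ C : ℝ, 0 ≤ C ∧ ∀ᶠ δ : ℝ in 𝓝[>] (0 : ℝ), |δ * lap gL (1 / 2 + δ)| ≤ C := by
  have hz : riemannZeta (1 / 2) ≠ 0 := by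
    have := Pool.Agent.Y21.FW.real_ne (x := 1 / 2) (by norm_num) (by norm_num)
    push_cast at this
    simpa using this
  -- the numerator
  have h1 : Tendsto (fun δ : ℝ => (1 + 2 * (δ : ℂ))) (𝓝[>] 0) (𝓝[≠] 1) := by
    refine tendsto_nhdsWithin_iff.2 ⟨?_, ?_⟩
    · have h2 : Continuous (fun δ : ℝ => (1 + 2 * (δ : ℂ))) := by fun_prop
      have h3 := h2.tendsto 0
      simp only [Complex.ofReal_zero, mul_zero, add_zero] at h3
      exact h3.mono_left nhdsWithin_le_nhds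
    · filter_upwards [self_mem_nhdsWithin] with δ hδ
      intro h2
      have h3 : (2 * (δ : ℂ)) = 0 := by
        have := congrArg (fun z : ℂ => z - 1) h2
        simpa using this
      have h4 : (δ : ℂ) = 0 := by simpa using h3
      have h5 : δ = 0 := by exact_mod_cast h4
      exact absurd h5 (ne_of_gt hδ)
  have h2 := riemannZeta_residue_one.comp h1
  have h3 : Tendsto (fun δ : ℝ => (δ : ℂ) * riemannZeta (1 + 2 * δ)) (𝓝[>] 0) (𝓝 (1 / 2)) := by
    have h4 := h2.const_mul (1 / 2 : ℂ)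
    rw [mul_one] at h4
    refine h4.congr fun δ => ?_
    simp only [Function.comp]
    ring
  -- the denominator
  have h4 : Tendsto (fun δ : ℝ => (((1 / 2 + δ : ℝ) : ℂ)) * riemannZeta ((1 / 2 + δ : ℝ) : ℂ)) (𝓝[>] 0)
      (𝓝 (1 / 2 * riemannZeta (1 / 2))) := by
    have h5 : Tendsto (fun δ : ℝ => ((1 / 2 + δ : ℝ) : ℂ)) (𝓝[>] 0) (𝓝 (1 / 2)) := by
      have h6 : Continuous (fun δ : ℝ => ((1 / 2 + δ : ℝ) : ℂ)) := by fun_prop
      have h7 := h6.tendsto 0
      have e : (((1 / 2 + 0 : ℝ)) : ℂ) = 1 / 2 := by norm_num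
      rw [e] at h7
      exact h7.mono_left nhdsWithin_le_nhds
    have h6 : ContinuousAt riemannZeta (1 / 2) := (differentiableAt_riemannZeta (by norm_num)).continuousAt
    exact h5.mul (h6.tendsto.comp h5)
  have h5 := (h3.div h4 (mul_ne_zero (by norm_num) hz)).norm
  obtain ⟨c, hc⟩ : ∃ c : ℝ, c = ‖(1 / 2 : ℂ) / (1 / 2 * riemannZeta (1 / 2))‖ := ⟨_, rfl⟩
  rw [← hc] at h5
  refine ⟨c + 1, by rw [hc]; positivity, ?_⟩
  have h6 : ∀ᶠ δ : ℝ in 𝓝[>] (0 : ℝ), δ < 1 / 2 := (eventually_lt_nhds (by norm_num)).filter_mono nhdsWithin_le_nhds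
  have h7 : ∀ᶠ δ : ℝ in 𝓝[>] (0 : ℝ), (((1 / 2 + δ : ℝ) : ℂ)) * riemannZeta ((1 / 2 + δ : ℝ) : ℂ) ≠ 0 :=
    h4.eventually_ne (mul_ne_zero (by norm_num) hz)
  filter_upwards [h5.eventually_le_const (show c < c + 1 by linarith), h6, h7, self_mem_nhdsWithin] with δ g1 g2 g3 g4
  have hδ : 0 < δ := g4
  refine le_trans (le_of_eq ?_) g1
  have hid := h.id ((1 / 2 + δ : ℝ) : ℂ) (by rw [Complex.ofReal_re]; linarith) (by
    intro h8
    have h9 : (1 / 2 + δ : ℝ) = 1 := by exact_mod_cast h8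
    linarith)
  rw [lapC_ofReal] at hid
  have e2 : 2 * (((1 / 2 + δ : ℝ)) : ℂ) = 1 + 2 * δ := by
    push_cast
    ring
  rw [e2] at hid
  have e3 : ((δ * lap gL (1 / 2 + δ) : ℝ) : ℂ) = (δ : ℂ) * riemannZeta (1 + 2 * δ) /
      ((((1 / 2 + δ : ℝ) : ℂ)) * riemannZeta ((1 / 2 + δ : ℝ) : ℂ)) := by
    rw [eq_div_iff g3, ← hid]
    push_cast
    ring
  have e4 := congrArg norm e3
  rw [Complex.norm_real, Real.norm_eq_abs] at e4
  exact e4

/-- the one-sided pointwise bound -/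
def OneSidedL (s B a : ℝ) : Prop :=
  ∀ᶠ x : ℝ in atTop, s * Lx x ≤ B * (Real.sqrt x * Real.log (Real.log (Real.log x)) ^ a)

theorem OneSidedL.ev {s B a : ℝ} (h : OneSidedL s B a) :
    ∀ᶠ v : ℝ in atTop, s * gL v * Real.exp (-(v / 2)) ≤ B * Real.log (Real.log v) ^ a := by
  filter_upwards [Real.tendsto_exp_atTop.eventually h] with v hv
  rw [Real.log_exp] at hv
  have h2 := mul_le_mul_of_nonneg_right hv (Real.exp_pos (-(v / 2))).le
  have e1 : Real.sqrt (Real.exp v) = Real.exp (v / 2) := by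
    rw [Real.sqrt_eq_iff_mul_self_eq (Real.exp_pos _).le (Real.exp_pos _).le, ← Real.exp_add]
    congr 1
    ring
  have e2 : Real.exp (v / 2) * Real.exp (-(v / 2)) = 1 := by
    rw [← Real.exp_add, add_neg_cancel, Real.exp_zero]
  rw [e1] at h2
  unfold gL
  calc s * Lx (Real.exp v) * Real.exp (-(v / 2))
      ≤ B * (Real.exp (v / 2) * Real.log (Real.log v) ^ a) * Real.exp (-(v / 2)) := h2
    _ = B * Real.log (Real.log v) ^ a * (Real.exp (v / 2) * Real.exp (-(v / 2))) := by ring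
    _ = _ := by rw [e2, mul_one]

theorem Lx_abs {x : ℝ} (hx : 0 ≤ x) : |Lx x| ≤ x := by
  unfold Lx
  refine (Finset.abs_sum_le_sum_abs _ _).trans ?_
  have h1 : ∀ n ∈ Finset.Icc 1 ⌊x⌋₊, |((ArithmeticFunction.liouville n : ℤ) : ℝ)| ≤ 1 := by
    intro n hn
    rw [Finset.mem_Icc] at hn
    have hn0 : n ≠ 0 := by omega
    rw [ArithmeticFunction.liouville_apply hn0]
    push_cast
    rw [abs_pow, abs_neg, abs_one, one_pow]
  refine (Finset.sum_le_card_nsmul _ _ _ h1).trans ?_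
  rw [Nat.card_Icc, Nat.add_sub_cancel, nsmul_eq_mul, mul_one]
  exact Nat.floor_le hx

theorem fL_le {s : ℝ} (hs : s = 1 ∨ s = -1) (v : ℝ) : s * gL v * Real.exp (-(v / 2)) ≤ Real.exp (v / 2) := by
  have h1 : s * gL v ≤ Real.exp v := by
    have h2 : |s * gL v| ≤ Real.exp v := by
      rw [abs_mul, s_abs hs, one_mul]
      exact Lx_abs (Real.exp_pos v).le
    exact (le_abs_self _).trans h2
  calc s * gL v * Real.exp (-(v / 2)) ≤ Real.exp v * Real.exp (-(v / 2)) :=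
        mul_le_mul_of_nonneg_right h1 (Real.exp_pos _).le
    _ = Real.exp (v / 2) := by
        rw [← Real.exp_add]
        congr 1
        ring

theorem qa_key {D v a : ℝ} (ha0 : 0 ≤ a) (ha1 : a ≤ 5 / 4) (hD : Real.exp (Real.exp 1) ≤ D) (hv : Real.exp 1 ≤ v) :
    Real.log (Real.log v) ^ a ≤ Real.log (Real.log D) ^ a * (1 + (Real.log D)⁻¹ * (v / D)) ^ 2 := by
  have h1 := q_key hD hv
  unfold q at h1
  have hl := llog_nn hv
  have hlD := llog_ge hD
  have hv0 : 0 < v := (Real.exp_pos 1).trans_le hv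
  have hD0 : 0 < D := (Real.exp_pos _).trans_le hD
  have hLD : 1 ≤ Real.log D := log_ge (exp_le.trans hD)
  obtain ⟨X, hX⟩ : ∃ X : ℝ, X = 1 + (Real.log D)⁻¹ * (v / D) := ⟨_, rfl⟩
  rw [← hX] at h1 ⊢
  have hX1 : 1 ≤ X := by
    rw [hX]
    have : 0 ≤ (Real.log D)⁻¹ * (v / D) := by positivity
    linarith
  have h2 := Real.rpow_le_rpow (Real.rpow_nonneg hl _) h1 (show 0 ≤ a * (4 / 5) by positivity)
  rw [← Real.rpow_mul hl, Real.mul_rpow (Real.rpow_nonneg (by linarith) _) (by positivity),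
    ← Real.rpow_mul (by linarith)] at h2
  have e : (5 / 4 : ℝ) * (a * (4 / 5)) = a := by ring
  rw [e] at h2
  refine h2.trans (mul_le_mul_of_nonneg_left ?_ (Real.rpow_nonneg (by linarith) _))
  calc (X ^ 2) ^ (a * (4 / 5)) ≤ (X ^ 2) ^ (1 : ℝ) :=
        Real.rpow_le_rpow_of_exponent_le (one_le_pow₀ hX1) (by linarith)
    _ = X ^ 2 := Real.rpow_one _

/-- the inequality at one scale -/
theorem up_scaleL {s B a : ℝ} (hs : s = 1 ∨ s = -1) (hB : 0 < B) (ha0 : 0 ≤ a) (ha1 : a ≤ 5 / 4) (h : OneSidedL s B a)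
    (htr : Tra) (hg : ∀ w : ℝ, 1 / 2 < w → LInt gL w) {A : ℝ} (hA : 1 ≤ A)
    {t₀ : ℝ} (ht₀ : 0 < t₀) : ∃ C : ℝ, 0 ≤ C ∧ ∀ᶠ T : ℝ in atTop, ∀ S : Finset ℝ, Free A T S →
      (∀ t ∈ S, t₀ ≤ t ∧ t ≤ T ∧ riemannZeta (1 / 2 + t * I) = 0) → (S.card : ℝ) ≤ T ^ 3 →
      Real.exp (-(T ^ (A + 4))) * ∑ t ∈ S, ‖lapC gL (pt t + (Real.exp (-(T ^ (A + 4))) : ℝ))‖ ≤
        C * Real.log T ^ a := by
  obtain ⟨C₀, hC₀, hlim⟩ := lim0 htr
  obtain ⟨v1, hv1⟩ := eventually_atTop.1 h.ev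
  obtain ⟨v0, hv0⟩ : ∃ v0 : ℝ, v0 = max v1 (Real.exp 1) := ⟨_, rfl⟩
  obtain ⟨K, hK⟩ : ∃ K : ℝ, K = Real.exp (v0 / 2) := ⟨_, rfl⟩
  have hK0 : 0 < K := by rw [hK]; exact Real.exp_pos _
  have hA1 : 0 < A + 4 := by linarith
  refine ⟨K + 2 + C₀ + 5 * (B * (A + 4) ^ a), by positivity, ?_⟩
  -- eventual conditions
  have E6 : ∀ᶠ T : ℝ in atTop, K + 5 * B * T ^ (2 * (A + 4)) ≤ Real.exp T := by
    have h1 := (isLittleO_rpow_exp_atTop (2 * (A + 4))).bound (c := 1 / (2 * (5 * B))) (by positivity)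
    filter_upwards [h1, Real.tendsto_exp_atTop.eventually_ge_atTop (2 * K), eventually_ge_atTop 0] with T h2 h3 h4
    rw [Real.norm_of_nonneg (Real.rpow_nonneg h4 _), Real.norm_of_nonneg (Real.exp_pos T).le] at h2
    have h5 := mul_le_mul_of_nonneg_left h2 (show 0 ≤ 5 * B by positivity)
    have e : 5 * B * (1 / (2 * (5 * B)) * Real.exp T) = Real.exp T / 2 := by field_simp
    rw [e] at h5
    linarith
  have E7 : ∀ᶠ T : ℝ in atTop, 3 + 26480 * Real.log (T + 5) ≤ T := by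
    have h1 := (Asymptotics.isLittleO_iff.1 Real.isLittleO_log_id_atTop) (c := 1 / 80000) (by norm_num)
    have h2 := (tendsto_atTop_add_const_right atTop (5 : ℝ) tendsto_id).eventually h1
    filter_upwards [h2, eventually_ge_atTop (100 : ℝ)] with T h3 h4
    simp only [id] at h3
    rw [Real.norm_of_nonneg (Real.log_nonneg (by linarith)), Real.norm_of_nonneg (by linarith)] at h3
    linarith
  have hδt : Tendsto (fun T : ℝ => Real.exp (-(T ^ (A + 4)))) atTop (𝓝[>] 0) := by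
    refine tendsto_nhdsWithin_iff.2 ⟨?_, Eventually.of_forall fun T => mem_Ioi.2 (Real.exp_pos _)⟩
    exact Real.tendsto_exp_atBot.comp (tendsto_neg_atTop_atBot.comp (tendsto_rpow_atTop hA1))
  have E8 := hδt.eventually hlim
  have E9 : ∀ᶠ T : ℝ in atTop, Real.exp (-(T ^ A)) ≤ t₀ := by
    have h1 : Tendsto (fun T : ℝ => Real.exp (-(T ^ A))) atTop (𝓝 0) :=
      Real.tendsto_exp_atBot.comp (tendsto_neg_atTop_atBot.comp (tendsto_rpow_atTop (by linarith)))
    exact h1.eventually_le_const ht₀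
  filter_upwards [E6, E7, E8, E9, eventually_ge_atTop (20 : ℝ),
    Real.tendsto_log_atTop.eventually_ge_atTop 1] with T e6 e7 e8 e9 hT20 hX1 S hC hS hcard
  have hT0 : 0 < T := by linarith
  obtain ⟨P, hP⟩ : ∃ P : ℝ, P = T ^ A := ⟨_, rfl⟩
  have hP1 : T ≤ P := by
    rw [hP]
    calc T = T ^ (1 : ℝ) := (Real.rpow_one T).symm
      _ ≤ T ^ A := Real.rpow_le_rpow_of_exponent_le (by linarith) hA
  obtain ⟨R, hR⟩ : ∃ R : ℝ, R = T ^ 4 := ⟨_, rfl⟩
  have hR0 : 0 < R := by rw [hR]; positivity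
  have hPT : T ^ (A + 4) = P * R := by
    rw [hP, hR, Real.rpow_add hT0]
    congr 1
    exact_mod_cast Real.rpow_natCast T 4
  have hR3 : R = T * T ^ 3 := by rw [hR]; ring
  have hT3 : (20 : ℝ) ≤ T ^ 3 := by
    calc (20 : ℝ) ≤ T := hT20
      _ ≤ T ^ 3 := le_self_pow₀ (by linarith) (by norm_num)
  have hPR3 : 20 * (P * T ^ 3) ≤ P * R := by
    rw [hR3]
    have h1 : 0 ≤ P * T ^ 3 := mul_nonneg (by linarith) (by linarith)
    have h2 : 20 * (P * T ^ 3) ≤ T * (P * T ^ 3) := mul_le_mul_of_nonneg_right hT20 h1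
    calc 20 * (P * T ^ 3) ≤ T * (P * T ^ 3) := h2
      _ = P * (T * T ^ 3) := by ring
  have hPP3 : P ≤ P * T ^ 3 := le_mul_of_one_le_right (by linarith) (by linarith)
  have hTP3 : T ^ 3 ≤ P * T ^ 3 := le_mul_of_one_le_left (by positivity) (by linarith)
  have hTT3 : T ≤ T ^ 3 := le_self_pow₀ (by linarith) (by norm_num)
  obtain ⟨δ, hδ⟩ : ∃ δ : ℝ, δ = Real.exp (-(T ^ (A + 4))) := ⟨_, rfl⟩
  rw [← hδ] at e8 ⊢
  have hδ0 : 0 < δ := by rw [hδ]; exact Real.exp_pos _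
  have hδi : δ⁻¹ = Real.exp (P * R) := by rw [hδ, ← Real.exp_neg, neg_neg, hPT]
  have hδ20 : δ ≤ 1 := by
    rw [hδ, Real.exp_le_one_iff, hPT]
    linarith
  have hlogδ : Real.log δ⁻¹ = P * R := by rw [hδi, Real.log_exp]
  have hD : Real.exp (Real.exp 1) ≤ δ⁻¹ := by
    rw [hδi]
    refine Real.exp_le_exp.2 ?_
    have := Real.exp_one_lt_d9
    linarith
  have hSz : ∀ t ∈ S, 0 < t ∧ t ≤ T ∧ riemannZeta (1 / 2 + t * I) = 0 := fun t ht =>
    ⟨by linarith [(hS t ht).1], (hS t ht).2.1, (hS t ht).2.2⟩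
  have hL1 : 1 ≤ Real.log δ⁻¹ := log_ge (exp_le.trans hD)
  have hLL1 : 1 ≤ Real.log (Real.log δ⁻¹) := llog_ge hD
  obtain ⟨Y, hY⟩ : ∃ Y : ℝ, Y = B * Real.log (Real.log δ⁻¹) ^ a := ⟨_, rfl⟩
  have hY0 : 0 ≤ Y := by rw [hY]; exact mul_nonneg hB.le (Real.rpow_nonneg (by linarith) _)
  have hYq : Y ≤ B * q δ⁻¹ := by
    rw [hY]
    exact mul_le_mul_of_nonneg_left (Real.rpow_le_rpow_of_exponent_le hLL1 ha1) hB.le
  have hη0 : 0 ≤ (Real.log δ⁻¹)⁻¹ := by positivity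
  have hη1 : (Real.log δ⁻¹)⁻¹ ≤ 1 := inv_le_one_of_one_le₀ hL1
  have hnl : ∀ z : ℂ, ‖lapC (fun v => s * gL v) z‖ = ‖lapC gL z‖ := by
    intro z
    rw [lapC_const, norm_mul, Complex.norm_real, Real.norm_eq_abs, s_abs hs, one_mul]
  -- the upper bound
  have hup := sidedG (F := fun v => s * gL v) (K := K) (Y := Y) (δ := δ) (η := (Real.log δ⁻¹)⁻¹) hK0.le hY0 hδ0 hη0 hη1
    ((hg _ (by linarith)).const_mul s) (fun v hv => by
      have h1 : 0 ≤ Y * (1 + (Real.log δ⁻¹)⁻¹ * (δ * v)) ^ 2 := by positivity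
      rcases le_total v v0 with h2 | h2
      · have h3 := fL_le hs v
        have h4 : Real.exp (v / 2) ≤ K := by rw [hK]; exact Real.exp_le_exp.2 (by linarith)
        show s * gL v * Real.exp (-(v / 2)) ≤ _
        linarith
      · have h3 := hv1 v ((le_max_left _ _).trans (hv0 ▸ h2))
        have h4 := mul_le_mul_of_nonneg_left (qa_key ha0 ha1 hD ((le_max_right v1 (Real.exp 1)).trans (hv0 ▸ h2))) hB.le
        have e : v / δ⁻¹ = δ * v := by rw [div_inv_eq_mul, mul_comm]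
        rw [e, ← mul_assoc, ← hY] at h4
        show s * gL v * Real.exp (-(v / 2)) ≤ _
        linarith) S
    (η' := Real.exp (-P)) (Q := Real.exp (3310 * Real.log (R + 5) * (1 + P))) (Real.exp_pos _)
    (by rw [hδ, hPT]; exact Real.exp_le_exp.2 (by linarith)) (fun t ht => mem_W_one ht) (fun x hx => W_mono hx)
    (by positivity) (fun x hx => by
      rw [hP]
      exact far0 hC hSz (fun t ht => e9.trans (hS t ht).1) hx) (fun x hx => by
      have h1 : |x| ≤ R := by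
        have h2 := W_abs (U := T) (fun t ht => ⟨(hSz t ht).1, (hSz t ht).2.1⟩) hx
        refine h2.trans ?_
        calc (S.card : ℝ) * T ≤ T ^ 3 * T := mul_le_mul_of_nonneg_right hcard hT0.le
          _ = R := by rw [hR]; ring
      have h3 := lap_upL htr (by linarith) hC hSz hx h1 hδ0 hδ20
      rw [hnl]
      rwa [← hP] at h3)
  have hsum : ∑ t ∈ S, ‖lapC (fun v => s * gL v) (pt t + δ)‖ = ∑ t ∈ S, ‖lapC gL (pt t + δ)‖ :=
    Finset.sum_congr rfl fun t _ => hnl _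
  rw [hsum, lap_const_mul] at hup
  -- sizes
  have hYT : Y = B * (A + 4) ^ a * Real.log T ^ a := by
    rw [hY, hlogδ, ← hPT, Real.log_rpow hT0, Real.mul_rpow hA1.le (by linarith), mul_assoc]
  have hqb : 5 * Y ≤ Real.exp T - K := by
    have h1 := q_le_sq (exp_le.trans hD)
    rw [hlogδ, ← hPT] at h1
    have h2 : (T ^ (A + 4)) ^ 2 = T ^ (2 * (A + 4)) := by
      rw [← Real.rpow_natCast, ← Real.rpow_mul hT0.le]
      congr 1
      push_cast
      ring
    rw [h2] at h1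
    have h3 := mul_le_mul_of_nonneg_left h1 (show 0 ≤ 5 * B by positivity)
    linarith
  have h2N : ∀ n : ℕ, (2 : ℝ) ^ n ≤ Real.exp n := by
    intro n
    calc (2 : ℝ) ^ n ≤ Real.exp 1 ^ n :=
          pow_le_pow_left₀ (by norm_num) (by have := Real.exp_one_gt_d9; linarith) n
      _ = Real.exp n := by rw [← Real.exp_nat_mul, mul_one]
  have t1 : δ * (2 ^ (S.card + 1) * ((K + 5 * Y) / Real.exp (-P))) ≤ 1 := by
    have h1 : (2 : ℝ) ^ (S.card + 1) ≤ Real.exp (T ^ 3 + 1) := by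
      refine (h2N _).trans (Real.exp_le_exp.2 ?_)
      push_cast
      linarith
    have h2 : (K + 5 * Y) / Real.exp (-P) ≤ Real.exp T * Real.exp P := by
      rw [Real.exp_neg, div_inv_eq_mul]
      exact mul_le_mul_of_nonneg_right (by linarith) (Real.exp_pos _).le
    have h3 : 0 ≤ (K + 5 * Y) / Real.exp (-P) := by positivity
    calc _ ≤ δ * (Real.exp (T ^ 3 + 1) * (Real.exp T * Real.exp P)) := by gcongr
      _ = Real.exp (-(P * R) + (T ^ 3 + 1 + (T + P))) := by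
          rw [hδ, hPT, ← Real.exp_add, ← Real.exp_add, ← Real.exp_add]
      _ ≤ 1 := by
          rw [Real.exp_le_one_iff]
          linarith
  have t2 : δ * (2 ^ S.card * Real.exp (3310 * Real.log (R + 5) * (1 + P))) ≤ 1 := by
    have h1 : (2 : ℝ) ^ S.card ≤ Real.exp (T ^ 3) := (h2N _).trans (Real.exp_le_exp.2 hcard)
    calc _ ≤ δ * (Real.exp (T ^ 3) * Real.exp (3310 * Real.log (R + 5) * (1 + P))) := by gcongr
      _ = Real.exp (-(P * R) + (T ^ 3 + 3310 * Real.log (R + 5) * (1 + P))) := by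
          rw [hδ, hPT, ← Real.exp_add, ← Real.exp_add]
      _ ≤ 1 := by
          rw [Real.exp_le_one_iff]
          have h4 : 0 ≤ Real.log (T + 5) := Real.log_nonneg (by linarith)
          have h8 : Real.log (R + 5) ≤ 4 * Real.log (T + 5) := by
            have h9 : Real.log (R + 5) ≤ Real.log ((T + 5) ^ 4) := by
              refine Real.log_le_log (by linarith) ?_
              rw [hR]
              have h10 : (T + 5) ^ 4 = T ^ 4 + (20 * T ^ 3 + 150 * T ^ 2 + 500 * T + 625) := by ring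
              rw [h10]
              have h11 : 0 ≤ 20 * T ^ 3 + 150 * T ^ 2 + 500 * T := by positivity
              linarith
            rw [Real.log_pow] at h9
            exact_mod_cast h9
          have h5 : 3310 * Real.log (R + 5) * (1 + P) ≤ 3310 * (4 * Real.log (T + 5)) * (2 * P) :=
            mul_le_mul (by linarith) (by linarith) (by linarith) (by linarith)
          have h6 : P * (3 + 26480 * Real.log (T + 5)) ≤ P * T := mul_le_mul_of_nonneg_left e7 (by linarith)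
          have h7 : P * (3 + 26480 * Real.log (T + 5)) = 3 * P + 3310 * (4 * Real.log (T + 5)) * (2 * P) := by ring
          have h12 : P * T ≤ P * T ^ 3 := mul_le_mul_of_nonneg_left hTT3 (by linarith)
          linarith
  have t3 : Y * (1 + 2 * (Real.log δ⁻¹)⁻¹ + 2 * (Real.log δ⁻¹)⁻¹ ^ 2) ≤ Y * 5 := by
    refine mul_le_mul_of_nonneg_left ?_ hY0
    have h1 : (Real.log δ⁻¹)⁻¹ ^ 2 ≤ 1 := pow_le_one₀ hη0 hη1
    linarith
  have t4 : -C₀ ≤ δ * (s * lap gL (1 / 2 + δ)) := by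
    have h1 : |δ * (s * lap gL (1 / 2 + δ))| ≤ C₀ := by
      have e : δ * (s * lap gL (1 / 2 + δ)) = s * (δ * lap gL (1 / 2 + δ)) := by ring
      rw [e, abs_mul, s_abs hs, one_mul]
      exact e8
    exact (abs_le.1 h1).1
  have hfin : δ * ∑ t ∈ S, ‖lapC gL (pt t + δ)‖ ≤ K + 2 + C₀ + 5 * Y := by linarith
  refine hfin.trans ?_
  have hXa : 1 ≤ Real.log T ^ a := Real.one_le_rpow hX1 ha0
  rw [hYT]
  have h1 : (K + 2 + C₀) * 1 ≤ (K + 2 + C₀) * Real.log T ^ a := mul_le_mul_of_nonneg_left hXa (by positivity)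
  calc K + 2 + C₀ + 5 * (B * (A + 4) ^ a * Real.log T ^ a)
      ≤ (K + 2 + C₀) * Real.log T ^ a + 5 * (B * (A + 4) ^ a * Real.log T ^ a) := by linarith
    _ = _ := by ring

end Pool.Agent.H158.GL
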