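import Pool.Agent.H158.GL.Stm
import Pool.Agent.H158.GM.Ampl

set_option autoImplicit false

/-! AMPS: summation over dyadic blocks. -/

namespace Pool.Agent.H158.GL

open Finset Filter Topology Complex

namespace Amps

/-- the properties of the sets in `Cnt` -/
def Good (e T : ℝ) (Z : Finset ℝ) : Prop :=
  (∀ t ∈ Z, T < t ∧ t ≤ 2 * T ∧ riemannZeta (1 / 2 + t * I) = 0 ∧
    0 < ‖deriv riemannZeta (1 / 2 + t * I)‖ ∧
    ‖deriv riemannZeta (1 / 2 + t * I)‖ ≤ Real.log T ^ (1 / 2 + e) ∧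
    Real.log T ^ (-e) ≤ ‖riemannZeta (1 + 2 * t * I)‖) ∧
  (Z.card : ℝ) ≤ T ^ 2 ∧ T * Real.log T ^ (3 / 4 - e) ≤ Z.card

/-- the lower bound for one block -/
lemma block_sum {e T : ℝ} (he2 : e ≤ 1 / 16) (he0 : 0 < e) (hT : Real.exp 1 ≤ T) (Z : Finset ℝ)
    (hZ : ∀ t ∈ Z, T < t ∧ t ≤ 2 * T) (hc : T * Real.log T ^ (3 / 4 - e) ≤ Z.card) :
    1 / 2 * T * Real.log T ^ (1 / 4 : ℝ) ≤ ∑ t ∈ Z, (Real.log t ^ (1 / 2 - e))⁻¹ := by
  have hT0 : 0 < T := lt_of_lt_of_le (Real.exp_pos 1) hT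
  have hL : 1 ≤ Real.log T := by
    rw [← Real.log_exp 1]
    exact Real.log_le_log (Real.exp_pos 1) hT
  have hL0 : 0 < Real.log T := by linarith
  have hlog2T : Real.log (2 * T) ≤ 2 * Real.log T := by
    rw [Real.log_mul (by norm_num) hT0.ne']
    have := Real.log_two_lt_d9
    linarith
  have hterm : ∀ t ∈ Z, 1 / 2 * Real.log T ^ (-(1 / 2 - e)) ≤ (Real.log t ^ (1 / 2 - e))⁻¹ := by
    intro t ht
    obtain ⟨h1, h2⟩ := hZ t ht
    have ht0 : 0 < t := by linarith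
    have hlt : Real.log T ≤ Real.log t := Real.log_le_log hT0 h1.le
    have hlt2 : Real.log t ≤ 2 * Real.log T := (Real.log_le_log ht0 h2).trans hlog2T
    have h3 : Real.log t ^ (1 / 2 - e) ≤ 2 * Real.log T ^ (1 / 2 - e) := by
      calc Real.log t ^ (1 / 2 - e) ≤ (2 * Real.log T) ^ (1 / 2 - e) :=
            Real.rpow_le_rpow (by linarith) hlt2 (by linarith)
        _ = 2 ^ (1 / 2 - e) * Real.log T ^ (1 / 2 - e) := Real.mul_rpow (by norm_num) hL0.le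
        _ ≤ 2 * Real.log T ^ (1 / 2 - e) := by
            refine mul_le_mul_of_nonneg_right ?_ (Real.rpow_nonneg hL0.le _)
            calc (2 : ℝ) ^ (1 / 2 - e) ≤ 2 ^ (1 : ℝ) :=
                  Real.rpow_le_rpow_of_exponent_le (by norm_num) (by linarith)
              _ = 2 := Real.rpow_one 2
    have h4 : 0 < Real.log t ^ (1 / 2 - e) := Real.rpow_pos_of_pos (by linarith) _
    have h5 : 1 / 2 * (Real.log T ^ (1 / 2 - e))⁻¹ = (2 * Real.log T ^ (1 / 2 - e))⁻¹ := by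
      rw [mul_inv]
      ring
    rw [Real.rpow_neg hL0.le, h5]
    exact inv_anti₀ h4 h3
  have hsum := Finset.card_nsmul_le_sum _ _ _ hterm
  rw [nsmul_eq_mul] at hsum
  refine le_trans ?_ hsum
  have h5 : Real.log T ^ (3 / 4 - e) * Real.log T ^ (-(1 / 2 - e)) = Real.log T ^ (1 / 4 : ℝ) := by
    rw [← Real.rpow_add hL0]
    congr 1
    ring
  calc 1 / 2 * T * Real.log T ^ (1 / 4 : ℝ)
      = (T * Real.log T ^ (3 / 4 - e)) * (1 / 2 * Real.log T ^ (-(1 / 2 - e))) := by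
        rw [← h5]
        ring
    _ ≤ Z.card * (1 / 2 * Real.log T ^ (-(1 / 2 - e))) :=
        mul_le_mul_of_nonneg_right hc
          (mul_nonneg (by norm_num) (Real.rpow_nonneg hL0.le _))

/-- comparison of one term -/
lemma term {e t y D z l L : ℝ} (he : 0 < e) (ht : 0 < t) (hy : 0 < y) (hl : 1 ≤ l) (hlL : l ≤ L)
    (hD0 : 0 < D) (hD : D ≤ l ^ (1 / 2 + e)) (hz : l ^ (-e) ≤ z) :
    L ^ (-(3 * e)) * (1 / (t * (l ^ (1 / 2 - e) + y))) ≤ z / (t * (D + y)) := by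
  have hl0 : 0 < l := by linarith
  have h2e : 1 ≤ l ^ (2 * e) := Real.one_le_rpow hl (by linarith)
  have h1 : D + y ≤ l ^ (2 * e) * (l ^ (1 / 2 - e) + y) := by
    have h3 : l ^ (2 * e) * l ^ (1 / 2 - e) = l ^ (1 / 2 + e) := by
      rw [← Real.rpow_add hl0]
      congr 1
      ring
    rw [mul_add, h3]
    have : y ≤ l ^ (2 * e) * y := le_mul_of_one_le_left hy.le h2e
    linarith
  have hX : 0 < l ^ (1 / 2 - e) + y := by
    have := Real.rpow_pos_of_pos hl0 (1 / 2 - e)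
    linarith
  have h4 : L ^ (-(3 * e)) ≤ l ^ (-(3 * e)) :=
    Real.rpow_le_rpow_of_nonpos hl0 hlL (by linarith)
  have h6 : (D + y) / (l ^ (1 / 2 - e) + y) ≤ l ^ (2 * e) := by
    rw [div_le_iff₀ hX]
    exact h1
  have h7 : 0 ≤ (D + y) / (l ^ (1 / 2 - e) + y) := div_nonneg (by linarith) hX.le
  rw [le_div_iff₀ (mul_pos ht (by linarith))]
  calc L ^ (-(3 * e)) * (1 / (t * (l ^ (1 / 2 - e) + y))) * (t * (D + y))
      = L ^ (-(3 * e)) * ((D + y) / (l ^ (1 / 2 - e) + y)) := by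
        field_simp
    _ ≤ l ^ (-(3 * e)) * l ^ (2 * e) :=
        mul_le_mul h4 h6 h7 (Real.rpow_nonneg hl0.le _)
    _ = l ^ (-e) := by
        rw [← Real.rpow_add hl0]
        congr 1
        ring
    _ ≤ z := hz

end Amps

open Amps in
theorem t_AMPS : P_AMPS := by
  intro hC ε hε hε1
  obtain ⟨e, he⟩ : ∃ e : ℝ, e = ε / 16 := ⟨_, rfl⟩
  have he0 : 0 < e := by rw [he]; linarith
  have he1 : e ≤ 1 / 16 := by rw [he]; linarith
  have hC1 : ∀ᶠ T : ℝ in atTop, ∃ Z : Finset ℝ, Good e T Z := hC e he0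
  have hch : ∀ T : ℝ, ∃ Z : Finset ℝ, (∃ Z', Good e T Z') → Good e T Z := by
    intro T
    by_cases h : ∃ Z', Good e T Z'
    · obtain ⟨Z', h'⟩ := h
      exact ⟨Z', fun _ => h'⟩
    · exact ⟨∅, fun h' => absurd h' h⟩
  choose Z hZ using hch
  obtain ⟨T0, hT0⟩ := eventually_atTop.1 hC1
  have hZ1 : ∀ T, T0 ≤ T → Good e T (Z T) := fun T hT => hZ T (hT0 T hT)
  have H : ∀ᶠ T : ℝ in atTop, (∀ t ∈ Z T, T < t ∧ t ≤ 2 * T ∧ 0 < Real.log t ^ (1 / 2 - e)) ∧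
      1 / 2 * T * Real.log T ^ (1 / 4 : ℝ) ≤ ∑ t ∈ Z T, (Real.log t ^ (1 / 2 - e))⁻¹ := by
    filter_upwards [eventually_ge_atTop T0, eventually_ge_atTop (Real.exp 1)] with T h1 h2
    obtain ⟨h4, -, h6⟩ := hZ1 T h1
    refine ⟨fun t ht => ⟨(h4 t ht).1, (h4 t ht).2.1, ?_⟩, ?_⟩
    · refine Real.rpow_pos_of_pos (Real.log_pos ?_) _
      have h7 := Real.add_one_le_exp 1
      linarith [(h4 t ht).1]
    · exact block_sum he1 he0 h2 (Z T) (fun t ht => ⟨(h4 t ht).1, (h4 t ht).2.1⟩) h6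
  have Hc : ∀ᶠ T : ℝ in atTop, ((Z T).card : ℝ) ≤ T ^ 2 := by
    filter_upwards [eventually_ge_atTop T0] with T h1
    exact (hZ1 T h1).2.1
  have hmain := Pool.Agent.H158.GM.t_ampl2 Z (fun t => Real.log t ^ (1 / 2 - e)) (1 / 2)
    (by norm_num) H Hc
  have hbig : ∀ᶠ U : ℝ in atTop, 200 ≤ Real.log U ^ (ε - 3 * e) :=
    ((tendsto_rpow_atTop (by rw [he]; linarith : 0 < ε - 3 * e)).comp
      Real.tendsto_log_atTop).eventually_ge_atTop 200
  filter_upwards [hmain, hbig, Real.tendsto_sqrt_atTop.eventually_ge_atTop (max T0 16),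
    Real.tendsto_log_atTop.eventually_ge_atTop 1] with U h1 h2 h3 h4
  obtain ⟨S, hS, hcard, hsum⟩ := h1
  have hL0 : 0 < Real.log U := by linarith
  have hprop : ∀ t ∈ S, 16 ≤ t ∧ t ≤ U ∧ riemannZeta (1 / 2 + t * I) = 0 ∧
      0 < ‖deriv riemannZeta (1 / 2 + t * I)‖ ∧ 1 ≤ Real.log t ∧ Real.log t ≤ Real.log U ∧
      ‖deriv riemannZeta (1 / 2 + t * I)‖ ≤ Real.log t ^ (1 / 2 + e) ∧
      Real.log t ^ (-e) ≤ ‖riemannZeta (1 + 2 * t * I)‖ := by
    intro t ht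
    obtain ⟨htU, T', hT', htZ⟩ := hS t ht
    have h5 : T0 ≤ T' := (le_max_left _ _).trans (h3.trans hT')
    have h6 : (16 : ℝ) ≤ T' := (le_max_right _ _).trans (h3.trans hT')
    obtain ⟨a1, a2, a3, a4, a5, a6⟩ := (hZ1 T' h5).1 t htZ
    have ht0 : 0 < t := by linarith
    have h7 : Real.exp 1 ≤ T' := by
      have := Real.exp_one_lt_d9
      linarith
    have h8 : 1 ≤ Real.log T' := by
      rw [← Real.log_exp 1]
      exact Real.log_le_log (Real.exp_pos 1) h7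
    have h9 : Real.log T' ≤ Real.log t := Real.log_le_log (by linarith) a1.le
    refine ⟨by linarith, htU, a3, a4, h8.trans h9, Real.log_le_log ht0 htU, ?_, ?_⟩
    · exact a5.trans (Real.rpow_le_rpow (by linarith) h9 (by linarith))
    · exact (Real.rpow_le_rpow_of_nonpos (by linarith) h9 (by linarith)).trans a6
  refine ⟨S, fun t ht => ?_, hcard, fun y hy hyU => ?_⟩
  · obtain ⟨b1, b2, b3, b4, b5, b6, b7, b8⟩ := hprop t ht
    refine ⟨b1, b2, b3, b4, ?_⟩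
    calc (Real.log U)⁻¹ = Real.log U ^ (-1 : ℝ) := (Real.rpow_neg_one _).symm
      _ ≤ Real.log U ^ (-e) := Real.rpow_le_rpow_of_exponent_le h4 (by linarith)
      _ ≤ Real.log t ^ (-e) := Real.rpow_le_rpow_of_nonpos (by linarith) b6 (by linarith)
      _ ≤ ‖riemannZeta (1 + 2 * t * I)‖ := b8
  · have hs := hsum y hy hyU
    have hpow : Real.log U ^ (5 / 4 - ε) * Real.log U ^ (ε - 3 * e) =
        Real.log U ^ (-(3 * e)) * Real.log U ^ (5 / 4 : ℝ) := by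
      rw [← Real.rpow_add hL0, ← Real.rpow_add hL0]
      congr 1
      ring
    have hp0 : 0 ≤ Real.log U ^ (5 / 4 - ε) := Real.rpow_nonneg hL0.le _
    have h5 : Real.log U ^ (5 / 4 - ε) * 200 ≤
        Real.log U ^ (-(3 * e)) * Real.log U ^ (5 / 4 : ℝ) := by
      rw [← hpow]
      exact mul_le_mul_of_nonneg_left h2 hp0
    calc Real.log U ^ (5 / 4 - ε)
        ≤ Real.log U ^ (-(3 * e)) * (1 / 2 / 100 * Real.log U ^ (5 / 4 : ℝ)) := by linarith
      _ ≤ Real.log U ^ (-(3 * e)) * ∑ t ∈ S, 1 / (t * (Real.log t ^ (1 / 2 - e) + y)) :=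
          mul_le_mul_of_nonneg_left hs (Real.rpow_nonneg hL0.le _)
      _ = ∑ t ∈ S, Real.log U ^ (-(3 * e)) * (1 / (t * (Real.log t ^ (1 / 2 - e) + y))) := by
          rw [Finset.mul_sum]
      _ ≤ ∑ t ∈ S, ‖riemannZeta (1 + 2 * t * I)‖ /
            (t * (‖deriv riemannZeta (1 / 2 + t * I)‖ + y)) := by
          refine Finset.sum_le_sum fun t ht => ?_
          obtain ⟨b1, b2, b3, b4, b5, b6, b7, b8⟩ := hprop t ht
          exact term he0 (by linarith) hy b5 b6 b4 b7 b8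

end Pool.Agent.H158.GL
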