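import Pool.Agent.H158.GL.Stm
import Pool.Agent.H158.LT.Zt
import Pool.Graph.R_seed8.Y745.ZR.Bad

/-! # Many simple zeros with a small derivative of zeta and no small value at `2ρ` (helper675) -/

set_option autoImplicit false

namespace Pool.Agent.H158.GL

open Finset Filter Topology Complex

namespace Cnt

/-- the exponents -/
theorem expo {L ε η : ℝ} (hη : η ≤ ε / 8) (hη1 : η ≤ 1 / 8) (hε : 0 < ε) (hL : 2 ≤ L)
    (hL2 : 2 ≤ L ^ (ε / 2)) : L ^ (3 / 4 - ε) ≤ L ^ (3 / 4 - η) - L ^ (-1 : ℝ) := by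
  have hL0 : 0 < L := by linarith
  have hL1 : 1 ≤ L := by linarith
  have h1 : 2 * L ^ (3 / 4 - ε) ≤ L ^ (3 / 4 - η) := by
    calc 2 * L ^ (3 / 4 - ε) ≤ L ^ (ε / 2) * L ^ (3 / 4 - ε) :=
          mul_le_mul_of_nonneg_right hL2 (Real.rpow_nonneg hL0.le _)
      _ = L ^ (ε / 2 + (3 / 4 - ε)) := (Real.rpow_add hL0 _ _).symm
      _ ≤ L ^ (3 / 4 - η) := Real.rpow_le_rpow_of_exponent_le hL1 (by linarith)
  have h2 : 2 * L ^ (-1 : ℝ) ≤ L ^ (3 / 4 - η) := by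
    calc 2 * L ^ (-1 : ℝ) ≤ L ^ (1 : ℝ) * L ^ (-1 : ℝ) := by
          refine mul_le_mul_of_nonneg_right ?_ (Real.rpow_nonneg hL0.le _)
          rw [Real.rpow_one]
          exact hL
      _ = L ^ ((1 : ℝ) + (-1)) := (Real.rpow_add hL0 _ _).symm
      _ ≤ L ^ (3 / 4 - η) := Real.rpow_le_rpow_of_exponent_le hL1 (by linarith)
  linarith

/-- `(log 4T)^(-η) ≥ (log T)^(-ε)` -/
theorem low4 {T ε η : ℝ} (hη0 : 0 < η) (hη : η ≤ ε / 8) (hT : 0 < T) (hL : 2 ≤ Real.log T) :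
    Real.log T ^ (-ε) ≤ Real.log (4 * T) ^ (-η) := by
  have hL0 : 0 < Real.log T := by linarith
  have h4 : Real.log (4 * T) = Real.log 4 + Real.log T := Real.log_mul (by norm_num) hT.ne'
  have h5 : Real.log 4 ≤ 2 := by
    have : Real.log 4 = 2 * Real.log 2 := by
      rw [show (4 : ℝ) = 2 ^ 2 by norm_num, Real.log_pow]
      push_cast
      ring
    have := Real.log_two_lt_d9
    linarith
  have h6 : 0 ≤ Real.log 4 := Real.log_nonneg (by norm_num)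
  have h7 : Real.log (4 * T) ≤ Real.log T ^ (2 : ℝ) := by
    rw [h4, show ((2 : ℝ)) = ((2 : ℕ) : ℝ) by norm_num, Real.rpow_natCast]
    nlinarith
  calc Real.log T ^ (-ε) ≤ Real.log T ^ (2 * (-η)) :=
        Real.rpow_le_rpow_of_exponent_le (by linarith) (by linarith)
    _ = (Real.log T ^ (2 : ℝ)) ^ (-η) := Real.rpow_mul hL0.le _ _
    _ ≤ Real.log (4 * T) ^ (-η) :=
        Real.rpow_le_rpow_of_nonpos (by rw [h4]; linarith) h7 (by linarith)

/-- an upper bound for the number of chosen zeros -/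
theorem upp {T ε : ℝ} (hε : 0 < ε) (hT : 4 ≤ T) (hL : 2 ≤ Real.log T)
    (hLT : Real.log T ≤ 1 / 2 * T) : T * Real.log T ^ (3 / 4 - ε) + 1 ≤ T ^ 2 := by
  have h1 : Real.log T ^ (3 / 4 - ε) ≤ Real.log T := by
    calc Real.log T ^ (3 / 4 - ε) ≤ Real.log T ^ (1 : ℝ) :=
          Real.rpow_le_rpow_of_exponent_le (by linarith) (by linarith)
      _ = Real.log T := Real.rpow_one _
  nlinarith

end Cnt

theorem t_CNT : P_CNT := by
  classical
  intro ε hε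
  obtain ⟨δ, hδ, hδ1, hfin⟩ := Pool.Agent.H158.LT.s_fin
  obtain ⟨η, hηd⟩ : ∃ η : ℝ, η = min (ε / 8) (1 / 8) := ⟨_, rfl⟩
  have hη0 : 0 < η := by rw [hηd]; exact lt_min (by linarith) (by norm_num)
  have hη1 : η ≤ ε / 8 := by rw [hηd]; exact min_le_left _ _
  have hη2 : η ≤ 1 / 8 := by rw [hηd]; exact min_le_right _ _
  filter_upwards [hfin (-1 / 2) η hη0,
    Pool.Agent.Y745.ZR.bad_zeros 1 η δ one_pos hη0 (by linarith) hδ,
    Real.tendsto_log_atTop.eventually ((tendsto_rpow_atTop (half_pos hε)).eventually_ge_atTop 2),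
    Real.tendsto_log_atTop.eventually_ge_atTop 2, eventually_ge_atTop (100 : ℝ),
    Real.isLittleO_log_id_atTop.bound (show (0 : ℝ) < 1 / 2 by norm_num)] with T h1 h2 h3 h4 hT h6
  obtain ⟨U1, U2, hU1, hU1', hU2, hU2', hcard⟩ := h1
  have hbad := h2 U1 U2 hU1 hU2'
  have hT0 : 0 < T := by linarith
  have hL0 : 0 < Real.log T := by linarith
  have hLT : Real.log T ≤ 1 / 2 * T := by
    simp only [id] at h6
    rwa [Real.norm_of_nonneg hL0.le, Real.norm_of_nonneg hT0.le] at h6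
  obtain ⟨F, hF, hFc⟩ : ∃ F : Finset ℂ, (∀ s ∈ F, s ∈ Pool.Agent.Y745.SW.isoS U1 U2 (δ / Real.log T) ∧
      T + 2 ≤ s.im ∧ s.im ≤ 2 * T - 2 ∧
      |Real.log ‖deriv riemannZeta s‖ - (1 + -1 / 2) * Pool.Agent.Y745.LD.LL T| ≤
        η * Pool.Agent.Y745.LD.LL T) ∧ T * Real.log T ^ (3 / 4 - η) ≤ (F.card : ℝ) := by
    refine ⟨_, fun s hs => Finset.mem_filter.1 hs, ?_⟩
    have e : (3 / 4 - η : ℝ) = 1 - (-1 / 2) ^ 2 - η := by ring
    rw [e]
    exact hcard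
  obtain ⟨B, hB, hBc⟩ : ∃ B : Finset ℂ, (∀ s ∈ Pool.Agent.Y745.SW.isoS U1 U2 (δ / Real.log T),
      T + 2 ≤ s.im → s.im ≤ 2 * T - 2 → ‖riemannZeta (2 * s)‖ < Real.log (4 * T) ^ (-η) → s ∈ B) ∧
      (B.card : ℝ) ≤ T * Real.log T ^ (-1 : ℝ) :=
    ⟨_, fun s g1 g2 g3 g4 => Finset.mem_filter.2 ⟨g1, g2, g3, Or.inl g4⟩, hbad⟩
  have hprop : ∀ s ∈ F \ B, s = 1 / 2 + (s.im : ℝ) * I ∧ T < s.im ∧ s.im ≤ 2 * T ∧
      riemannZeta (1 / 2 + (s.im : ℝ) * I) = 0 ∧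
      0 < ‖deriv riemannZeta (1 / 2 + (s.im : ℝ) * I)‖ ∧
      ‖deriv riemannZeta (1 / 2 + (s.im : ℝ) * I)‖ ≤ Real.log T ^ (1 / 2 + ε) ∧
      Real.log T ^ (-ε) ≤ ‖riemannZeta (1 + 2 * (s.im : ℝ) * I)‖ := by
    intro s hs
    rw [Finset.mem_sdiff] at hs
    obtain ⟨hs1, hs2⟩ := hs
    obtain ⟨g1, g2, g3, g4⟩ := hF s hs1
    have g5 : ¬ ‖riemannZeta (2 * s)‖ < Real.log (4 * T) ^ (-η) := fun g => hs2 (hB s g1 g2 g3 g)
    unfold Pool.Agent.Y745.SW.isoS at g1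
    rw [Finset.mem_filter] at g1
    obtain ⟨g6, g7, g8, -⟩ := g1
    have hz : riemannZeta s = 0 := ((H370.mem_Zf H370.good_zeta (by linarith)).1 g6).2.2.2.2
    have e : s = 1 / 2 + (s.im : ℝ) * I := by
      apply Complex.ext
      · simp [g7]
      · simp
    have hne1 : s ≠ 1 := by
      intro h
      rw [h] at g7
      norm_num at g7
    have hd : deriv riemannZeta s ≠ 0 := Pool.Agent.H158.LT.deriv_ne_zero hne1 g8
    have e2 : 2 * s = 1 + 2 * (s.im : ℝ) * I := by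
      conv_lhs => rw [e]
      ring
    rw [← e, ← e2]
    refine ⟨rfl, by linarith, by linarith, hz, norm_pos_iff.2 hd, ?_, ?_⟩
    · have g9 := (abs_le.1 g4).2
      have g10 : Real.log ‖deriv riemannZeta s‖ ≤ (1 / 2 + η) * Real.log (Real.log T) := by
        have e3 : Pool.Agent.Y745.LD.LL T = Real.log (Real.log T) := rfl
        rw [e3] at g9
        linarith
      calc ‖deriv riemannZeta s‖ = Real.exp (Real.log ‖deriv riemannZeta s‖) :=
            (Real.exp_log (norm_pos_iff.2 hd)).symm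
        _ ≤ Real.exp ((1 / 2 + η) * Real.log (Real.log T)) := Real.exp_le_exp.2 g10
        _ = Real.log T ^ (1 / 2 + η) := by rw [Real.rpow_def_of_pos hL0, mul_comm]
        _ ≤ Real.log T ^ (1 / 2 + ε) :=
            Real.rpow_le_rpow_of_exponent_le (by linarith) (by linarith)
    · exact (Cnt.low4 hη0 hη1 hT0 h4).trans (not_lt.1 g5)
  have hinj : Set.InjOn Complex.im (↑(F \ B) : Set ℂ) := by
    intro a ha b hb hab
    rw [(hprop a (Finset.mem_coe.1 ha)).1, (hprop b (Finset.mem_coe.1 hb)).1, hab]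
  have hcardZ : T * Real.log T ^ (3 / 4 - ε) ≤ (((F \ B).image Complex.im).card : ℝ) := by
    rw [Finset.card_image_of_injOn hinj]
    have h7 : (F.card : ℝ) ≤ ((F \ B).card : ℝ) + (B.card : ℝ) := by
      exact_mod_cast Finset.card_le_card_sdiff_add_card
    have h8 := mul_le_mul_of_nonneg_left (Cnt.expo hη1 hη2 hε h4 h3) hT0.le
    rw [mul_sub] at h8
    linarith
  obtain ⟨Z, hZ, hZc⟩ := Finset.exists_subset_card_eq (Nat.ceil_le.2 hcardZ)
  refine ⟨Z, fun t ht => ?_, ?_, ?_⟩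
  · obtain ⟨s, hs, rfl⟩ := Finset.mem_image.1 (hZ ht)
    exact (hprop s hs).2
  · rw [hZc]
    have h7 := Nat.ceil_lt_add_one
      (show 0 ≤ T * Real.log T ^ (3 / 4 - ε) from mul_nonneg hT0.le (Real.rpow_nonneg hL0.le _))
    have h8 := Cnt.upp hε (by linarith) h4 hLT
    linarith
  · rw [hZc]
    exact Nat.le_ceil _

end Pool.Agent.H158.GL
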