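import Pool.Agent.H158.GL.Stm
import Pool.Graph.R_seed8.H437R2.A1

/-! # LIP: zeta at `1 + 2 i t` and slightly to the right -/

set_option autoImplicit false

namespace Pool.Agent.H158.GL

open Complex Metric

namespace Lip

theorem bd {t : ℝ} (ht : 1 ≤ t) {w : ℂ} (hw : ‖w - (1 + 2 * t * I)‖ ≤ 9 / 20) :
    ‖riemannZeta₁ w‖ ≤ 60 * t ^ 2 := by
  have h1 : |(w - (1 + 2 * t * I)).re| ≤ 9 / 20 := (Complex.abs_re_le_norm _).trans hw
  have h2 : (w - (1 + 2 * t * I)).re = w.re - 1 := by simp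
  rw [h2] at h1
  have h3 := (abs_le.1 h1).1
  have h4 := Pool.Agent.H437R2.z1_norm_le (s := w) (by linarith)
  have h5 : ‖w‖ ≤ 29 / 20 + 2 * t := by
    have h6 : w = (w - (1 + 2 * t * I)) + (1 + 2 * t * I) := by ring
    have h7 : ‖(1 : ℂ) + 2 * t * I‖ ≤ 1 + 2 * t := by
      refine (norm_add_le _ _).trans ?_
      rw [norm_one, norm_mul, norm_mul, Complex.norm_I, Complex.norm_real, Real.norm_eq_abs,
        abs_of_nonneg (by linarith)]
      simp
    rw [h6]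
    refine (norm_add_le _ _).trans ?_
    linarith
  refine h4.trans ?_
  have h8 : 0 ≤ ‖w‖ := norm_nonneg w
  nlinarith

theorem sub_im {t δ : ℝ} (ht : 1 ≤ t) : 2 ≤ ‖(1 + 2 * t * I + 2 * δ : ℂ) - 1‖ := by
  refine le_trans ?_ (Complex.abs_im_le_norm _)
  have h : ((1 + 2 * t * I + 2 * δ : ℂ) - 1).im = 2 * t := by simp
  rw [h, abs_of_nonneg (by linarith)]
  linarith

theorem ne_one {t δ : ℝ} (ht : 1 ≤ t) : (1 + 2 * t * I + 2 * δ : ℂ) ≠ 1 := by
  intro h
  have h1 := sub_im (δ := δ) ht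
  rw [h, sub_self, norm_zero] at h1
  linarith

theorem zbd {t δ : ℝ} (ht : 1 ≤ t) (h0 : 0 ≤ δ) (h1 : δ ≤ 1 / 10) :
    ‖riemannZeta (1 + 2 * t * I + 2 * δ)‖ ≤ 30 * t ^ 2 := by
  have h2 := Pool.Agent.H437R2.z1_of_ne (ne_one (δ := δ) ht)
  have h3 : ‖riemannZeta₁ (1 + 2 * t * I + 2 * δ)‖ ≤ 60 * t ^ 2 := by
    apply bd ht
    rw [add_sub_cancel_left, norm_mul, Complex.norm_real, Real.norm_eq_abs, abs_of_nonneg h0]
    simp only [Complex.norm_ofNat]
    linarith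
  rw [h2, norm_mul] at h3
  have h4 := sub_im (δ := δ) ht
  have h5 : 0 ≤ ‖riemannZeta (1 + 2 * t * I + 2 * δ)‖ := norm_nonneg _
  nlinarith

theorem dbd {t : ℝ} (ht : 1 ≤ t) {z : ℂ} (hz : z ∈ closedBall (1 + 2 * t * I : ℂ) (1 / 5)) :
    ‖deriv riemannZeta₁ z‖ ≤ 240 * t ^ 2 := by
  have h1 := Complex.norm_deriv_le_of_forall_mem_sphere_norm_le (c := z) (R := 1 / 4)
    (C := 60 * t ^ 2) (f := riemannZeta₁) (by norm_num)
    (differentiable_riemannZeta₁.diffContOnCl) ?_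
  · refine h1.trans ?_
    linarith
  · intro w hw
    apply bd ht
    rw [mem_closedBall, dist_eq_norm] at hz
    rw [mem_sphere, dist_eq_norm] at hw
    have h2 : w - (1 + 2 * t * I) = (w - z) + (z - (1 + 2 * t * I)) := by ring
    rw [h2]
    refine (norm_add_le _ _).trans ?_
    linarith

end Lip

open Lip

theorem t_LIP : P_LIP := by
  refine ⟨270, by norm_num, fun t δ ht h0 h1 => ⟨?_, ?_⟩⟩
  · have hn : ‖(2 : ℂ) * δ‖ = 2 * δ := by
      rw [norm_mul, Complex.norm_real, Real.norm_eq_abs, abs_of_nonneg h0]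
      simp
    have e1 := Pool.Agent.H437R2.z1_of_ne (ne_one (δ := δ) ht)
    have e0 := Pool.Agent.H437R2.z1_of_ne (ne_one (δ := 0) ht)
    have z0 := zbd (δ := 0) ht (le_refl _) (by norm_num)
    have hz : (1 + 2 * t * I + 2 * ((0 : ℝ) : ℂ) : ℂ) = 1 + 2 * t * I := by simp
    rw [hz] at e0 z0
    have hd := (convex_closedBall (1 + 2 * t * I : ℂ) (1 / 5)).norm_image_sub_le_of_norm_deriv_le
      (f := riemannZeta₁) (C := 240 * t ^ 2) (x := 1 + 2 * t * I) (y := 1 + 2 * t * I + 2 * δ)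
      (fun x _ => differentiable_riemannZeta₁ x) (fun x hx => dbd ht hx)
      (mem_closedBall_self (by norm_num)) (by
        rw [mem_closedBall, dist_eq_norm, add_sub_cancel_left, hn]
        linarith)
    rw [add_sub_cancel_left, hn] at hd
    have key : ((1 + 2 * t * I + 2 * δ : ℂ) - 1) *
        (riemannZeta (1 + 2 * t * I + 2 * δ) - riemannZeta (1 + 2 * t * I)) =
        (riemannZeta₁ (1 + 2 * t * I + 2 * δ) - riemannZeta₁ (1 + 2 * t * I)) -
          2 * δ * riemannZeta (1 + 2 * t * I) := by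
      rw [e1, e0]
      ring
    have hk := congrArg norm key
    rw [norm_mul] at hk
    have hk2 : ‖(riemannZeta₁ (1 + 2 * t * I + 2 * δ) - riemannZeta₁ (1 + 2 * t * I)) -
          2 * δ * riemannZeta (1 + 2 * t * I)‖ ≤ 240 * t ^ 2 * (2 * δ) + 2 * δ * (30 * t ^ 2) := by
      refine (norm_sub_le _ _).trans (add_le_add hd ?_)
      rw [norm_mul, hn]
      exact mul_le_mul_of_nonneg_left z0 (by linarith)
    rw [← hk] at hk2
    have h4 := sub_im (δ := δ) ht
    have h5 : 0 ≤ ‖riemannZeta (1 + 2 * t * I + 2 * δ) - riemannZeta (1 + 2 * t * I)‖ :=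
      norm_nonneg _
    nlinarith
  · refine (zbd ht h0 h1).trans ?_
    nlinarith [sq_nonneg t]

end Pool.Agent.H158.GL
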