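import Pool.Graph.R_seed8.W263.BSD.Lap
import Pool.Graph.R_seed8.W263.BSD.Asy

/-! # Gonek's order of magnitude for the Liouville sum, or close relations between the ordinates: parts of the proof

Every `P_X` is one part; its docstring is a paper proof. -/

set_option autoImplicit false

namespace Pool.Agent.H158.GL

open Finset Filter Topology Complex
open Pool.Agent.W263.BSD

/-- the Liouville summatory function -/
noncomputable def Lx (x : ℝ) : ℝ := ∑ n ∈ Finset.Icc 1 ⌊x⌋₊, ((ArithmeticFunction.liouville n : ℤ) : ℝ)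

noncomputable def gL (v : ℝ) : ℝ := Lx (Real.exp v)

/-- `(s - 1) ζ(s)` for `s ≠ 1` -/
noncomputable def z1 (s : ℂ) : ℂ := (s - 1) * riemannZeta s

/-- **TR** (the Laplace transform of `L(e^v)`). If `s L(y) ≤ y^(1/2+ε)` for one sign `s`, all `ε > 0` and all large `y` then: the
Laplace transform converges absolutely in `Re z > 1/2`, the nontrivial zeros are on the critical line, and
for `z ≠ 1`, `Re z > 1/2`:
`z ζ(z) lapC gL z = ζ(2 z)`.
Proof. Library `Pool.Graph.R_pool_sql_team_seeded_3997aac3.Q241.SPL.Gen` (`Q241SPL.qd_lam`, `QD.half_plane` for `P = univ`, `θ = 0`,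
`c = 1/2` gives the zeros; `QD.bound` gives `|S f y| ≤ C y^(1/2+ε)` and so `LInt`; the identity is known for `Re z > 1` (Dirichlet
series, partial summation; it is in the library for `QD` as well, for the transform `LL`) and extends by analyticity, or is already
there in `Re z > 1/2`). For the sign `s = -1` use `qd_lam.neg`, see `general_L` in the library result
`Pool/Graph/R_pool_sql_team_seeded_3997aac3/Results/MP_0ec205_nt/RelationsFromBounds.lean`. `lapC`, `LInt` are in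
`Pool.Graph.R_seed8.W263.BSD.Lap`. -/
def P_TR : Prop :=
  ∀ s : ℝ, (s = 1 ∨ s = -1) → (∀ ε : ℝ, 0 < ε → ∀ᶠ y : ℝ in atTop, s * Lx y ≤ y ^ (1 / 2 + ε)) →
    (∀ w : ℝ, 1 / 2 < w → LInt gL w) ∧
    (∀ ρ : ℂ, riemannZeta ρ = 0 → 0 < ρ.re → ρ.re < 1 → ρ.re = 1 / 2) ∧
    ∀ z : ℂ, 1 / 2 < z.re → z ≠ 1 → z * riemannZeta z * lapC gL z = riemannZeta (2 * z)

/-- **LIP** (`ζ` at `1 + 2it` and slightly to the right).
Proof. `ζ₁(s) = (s-1) ζ(s)` is entire (`riemannZeta₁` in the library, `Pool.Agent.H437R2.z1_of_ne`) and `SG.z1_growth` bounds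
`‖ζ₁ s‖ ≤ C (‖s‖+1)^2` for `Re s` not too small; Cauchy's estimate on circles of radius `1/2`
(`Complex.norm_deriv_le_of_forall_mem_sphere_norm_le`) bounds the derivative, the mean value inequality on the segment gives
`‖ζ₁(1+2δ+2it) - ζ₁(1+2it)‖ ≤ C' t^2 δ`, and one divides by `s - 1` (`‖2it‖ ≥ 2t ≥ 2`). -/
def P_LIP : Prop :=
  ∃ C : ℝ, 0 < C ∧ ∀ t δ : ℝ, 1 ≤ t → 0 ≤ δ → δ ≤ 1 / 10 →
    ‖riemannZeta (1 + 2 * t * I + 2 * δ) - riemannZeta (1 + 2 * t * I)‖ ≤ C * t ^ 2 * δ ∧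
    ‖riemannZeta (1 + 2 * t * I + 2 * δ)‖ ≤ C * t ^ 2

/-- the count of the good zeros -/
def Cnt : Prop := ∀ ε : ℝ, 0 < ε → ∀ᶠ T : ℝ in atTop, ∃ Z : Finset ℝ,
  (∀ t ∈ Z, T < t ∧ t ≤ 2 * T ∧ riemannZeta (1 / 2 + t * I) = 0 ∧ 0 < ‖deriv riemannZeta (1 / 2 + t * I)‖ ∧
    ‖deriv riemannZeta (1 / 2 + t * I)‖ ≤ Real.log T ^ (1 / 2 + ε) ∧ Real.log T ^ (-ε) ≤ ‖riemannZeta (1 + 2 * t * I)‖) ∧
  (Z.card : ℝ) ≤ T ^ 2 ∧ T * Real.log T ^ (3 / 4 - ε) ≤ Z.card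

/-- **CNT** (many zeros with a small derivative of zeta and no small value at `2ρ`).
Proof. `Pool.Agent.H158.LT.s_fin : Pool.Agent.Y781.LT.S_FIN` (file `Pool/Agent/H158/LT/Zt.lean`) with `κ = -1/2` and a smaller
`ε' = ε/8`: for all large `T` at least `T (log T)^(3/4-ε')` zeros `s` in `isoS U1 U2 (δ/log T)` with `T + 2 ≤ Im s ≤ 2T - 2` and
`|log ‖ζ'(s)‖ - (1/2) LL T| ≤ ε' LL T`. `Pool.Agent.Y745.ZR.bad_zeros 1 ε' δ` (module `Pool.Graph.R_seed8.Y745.ZR.Bad`): at most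
`T (log T)^(-1)` of them have `‖ζ(2s)‖ < (log 4T)^(-ε')`. Remove these (`T (log T)^(-1) ≤ (1/2) T (log T)^(3/4-ε')` for large `T`) and
pass to the ordinates (`s = 1/2 + i Im s` in `isoS`, so `2 s = 1 + 2 i Im s`). The derivative is not zero at an isolated simple zero
(`Pool.Agent.H158.LT.deriv_ne_zero` in `Pool/Agent/H158/LT`), `(log 4T)^(-ε') ≥ (log T)^(-ε)` for large `T`. For the upper bound of
the cardinality see the theorem `ampl` in `Pool/Agent/H158/GM/Low.lean` (`Pool.Agent.Q97.UM.ZI_card_le`), or count the zeros by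
any other upper bound; if the bound `T^2` is inconvenient take a subset of the zeros of cardinality at most `T^2` (`T (log T)^(3/4-ε) ≤
T^2` for large `T`, `Finset.exists_subset_card_eq`), which is the simplest. -/
def P_CNT : Prop := Cnt

/-- **AMPS** (summation over dyadic blocks).
Proof. Choose for all `T` a set `Z T` as in `Cnt` (with `ε' = ε / 16`; empty where `Cnt` says nothing). Put
`D t = (log t)^(1/2 - ε')`: then `∑_{t ∈ Z T} 1 / D t ≥ card (Z T) (log 2T)^(-(1/2-ε')) ≥ (1/2) T (log T)^(1/4)`. Apply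
`Pool.Agent.H158.GM.t_ampl2` (file `Pool/Agent/H158/GM/Ampl.lean`): for all large `U` a finite set `S`, `card S ≤ U^3`, with
every `t ∈ S` in some `Z T'`, `√U ≤ T'`, `t ≤ U`, and `∑_{t ∈ S} 1 / (t (D t + y)) ≥ c (log U)^(5/4)` for `0 < y ≤ 1/U^2`. For `t ∈ S`:
`‖ζ'‖ + y ≤ 2 (log T')^(1/2+ε') ≤ 2 (log t)^(1/2+ε')`, `‖ζ(1+2it)‖ ≥ (log T')^(-ε') ≥ (log t)^(-ε')`, so the term
`‖ζ(1+2it)‖ / (t (‖ζ'‖ + y)) ≥ (1/2) (log t)^(-1/2-2ε') / t = (1/2) (log t)^(-3ε') / (t D t) ≥ (1/2) (log U)^(-3ε') / (t (D t + y))`.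
Hence the sum is at least `(c/2) (log U)^(5/4-3ε') ≥ (log U)^(5/4-ε)` for large `U`. Compare the theorem `ampl` at the end of
`Pool/Agent/H158/GM/Low.lean`, which uses `t_ampl2` in the same way for the Moebius function. -/
def P_AMPS : Prop := Cnt →
  ∀ ε : ℝ, 0 < ε → ε ≤ 1 → ∀ᶠ U : ℝ in atTop, ∃ S : Finset ℝ,
    (∀ t ∈ S, 16 ≤ t ∧ t ≤ U ∧ riemannZeta (1 / 2 + t * I) = 0 ∧ 0 < ‖deriv riemannZeta (1 / 2 + t * I)‖ ∧
      (Real.log U)⁻¹ ≤ ‖riemannZeta (1 + 2 * t * I)‖) ∧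
    (S.card : ℝ) ≤ U ^ 3 ∧ ∀ y : ℝ, 0 < y → y ≤ 1 / U ^ 2 →
      Real.log U ^ (5 / 4 - ε) ≤ ∑ t ∈ S, ‖riemannZeta (1 + 2 * t * I)‖ / (t * (‖deriv riemannZeta (1 / 2 + t * I)‖ + y))

end Pool.Agent.H158.GL
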