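import Pool.Agent.H158.GM.Low
import Pool.Agent.H158.GL.Stm

set_option autoImplicit false

/-! The Laplace transform of the Liouville sum at the zeros and away from them. -/

namespace Pool.Agent.H158.GL

open Filter Topology Set MeasureTheory Complex
open Pool.Agent.W263.BSD Pool.Agent.Y853.HM Pool.Agent.H198.GM Pool.Agent.H158.GM

/-- the two facts which replace the Landau argument -/
structure Tra : Prop where
  rh : ∀ ρ : ℂ, riemannZeta ρ = 0 → 0 < ρ.re → ρ.re < 1 → ρ.re = 1 / 2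
  id : ∀ z : ℂ, 1 / 2 < z.re → z ≠ 1 → z * riemannZeta z * lapC gL z = riemannZeta (2 * z)

theorem Tra.id1 (h : Tra) {z : ℂ} (hz : 1 / 2 < z.re) (hz1 : z ≠ 1) :
    ‖z‖ * ‖riemannZeta₁ z‖ * ‖lapC gL z‖ = ‖z - 1‖ * ‖riemannZeta (2 * z)‖ := by
  rw [Pool.Agent.H437R2.z1_of_ne hz1, ← h.id z hz hz1]
  simp only [norm_mul]
  ring

theorem pt_ne_one {x : ℝ} (hx : x ≠ 0) (δ : ℝ) : pt x + (δ : ℂ) ≠ 1 := by
  intro h
  have := congrArg Complex.im h
  simp [pt] at this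
  exact hx this

theorem pt_re' (x δ : ℝ) : (pt x + (δ : ℂ)).re = 1 / 2 + δ := by
  simp [pt]

theorem pt_im' (x δ : ℝ) : (pt x + (δ : ℂ)).im = x := by
  simp [pt]

/-- away from the zeros the Laplace transform is not too large -/
theorem lap_upL (h : Tra) {A T : ℝ} (hT : 1 ≤ T) {S : Finset ℝ} (hC : Free A T S)
    (hS : ∀ t ∈ S, 0 < t ∧ t ≤ T ∧ riemannZeta (1 / 2 + t * I) = 0) {x δ R : ℝ} (hx : x ∈ W 2 S) (hxR : |x| ≤ R)
    (hδ : 0 < δ) (hδ1 : δ ≤ 1) :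
    ‖lapC gL (pt x + δ)‖ ≤ Real.exp (3310 * Real.log (R + 5) * (1 + T ^ A)) := by
  have hTA : 0 ≤ T ^ A := Real.rpow_nonneg (by linarith) A
  have hη1 : Real.exp (-(T ^ A)) ≤ 1 := Real.exp_le_one_iff.2 (by linarith)
  have hs : pt x + (δ : ℂ) = ((1 / 2 + δ : ℝ) : ℂ) + x * I := by
    unfold pt; push_cast; ring
  have hxη : Real.exp (-(T ^ A)) ≤ |x| := by
    have h3 := far1 hC hS hx (γ₀ := 0) (Or.inl rfl) 1 (Or.inl rfl)
    rwa [mul_zero, sub_zero] at h3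
  have hx0 : x ≠ 0 := by
    rintro rfl
    rw [abs_zero] at hxη
    exact absurd hxη (not_le.2 (Real.exp_pos _))
  have hR0 : 0 ≤ R := (abs_nonneg x).trans hxR
  have hlow := zlow (1 / 2 + δ) x (Real.exp (-(T ^ A))) (by linarith) (by linarith) (Real.exp_pos _) hη1 (by
    intro ρ hρ hρ0
    have hρ1 : ρ ≠ 1 := by
      rintro rfl
      rw [riemannZeta₁_one] at hρ
      exact one_ne_zero hρ
    have hz : riemannZeta ρ = 0 := by
      have h1 := Pool.Agent.H437R2.z1_of_ne hρ1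
      rw [hρ] at h1
      rcases mul_eq_zero.1 h1.symm with h2 | h2
      · exact absurd (sub_eq_zero.1 h2) hρ1
      · exact h2
    have hre1 : ρ.re < 1 := by
      by_contra hcon
      push Not at hcon
      exact riemannZeta_ne_zero_of_one_le_re hcon hz
    have hre := h.rh ρ hz hρ0 hre1
    have hρe : ρ = 1 / 2 + (ρ.im : ℝ) * I := by
      apply Complex.ext
      · simp [hre]
      · simp
    have him : |x - ρ.im| ≤ ‖((1 / 2 + δ : ℝ) : ℂ) + x * I - ρ‖ := by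
      have := Complex.abs_im_le_norm (((1 / 2 + δ : ℝ) : ℂ) + x * I - ρ)
      simpa using this
    refine le_trans ?_ him
    rw [hρe] at hz
    rcases lt_trichotomy ρ.im 0 with h | h | h
    · have h3 := far1 hC hS hx (γ₀ := -ρ.im) (Or.inr ⟨by linarith, zero_neg hz⟩) (-1) (Or.inr rfl)
      have e : x - ((-1 : ℤ) : ℝ) * (-ρ.im) = x - ρ.im := by push_cast; ring
      rwa [e] at h3
    · rw [h, sub_zero]
      exact hxη
    · have h3 := far1 hC hS hx (γ₀ := ρ.im) (Or.inr ⟨h, hz⟩) 1 (Or.inl rfl)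
      have e : x - ((1 : ℤ) : ℝ) * ρ.im = x - ρ.im := by push_cast; ring
      rwa [e] at h3)
  rw [← hs] at hlow
  have hlog : Real.log (1 / Real.exp (-(T ^ A))) = T ^ A := by
    rw [Real.exp_neg, one_div, inv_inv, Real.log_exp]
  rw [hlog] at hlow
  have hlx : Real.log (|x| + 5) ≤ Real.log (R + 5) := Real.log_le_log (by positivity) (by linarith)
  have hlow2 : Real.exp (-(3300 * Real.log (R + 5) * (1 + T ^ A))) ≤ ‖riemannZeta₁ (pt x + δ)‖ := by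
    refine le_trans (Real.exp_le_exp.2 ?_) hlow
    have : 3300 * Real.log (|x| + 5) * (1 + T ^ A) ≤ 3300 * Real.log (R + 5) * (1 + T ^ A) :=
      mul_le_mul_of_nonneg_right (by linarith) (by linarith)
    linarith
  have hid := h.id1 (z := pt x + δ) (by rw [pt_re']; linarith) (pt_ne_one hx0 δ)
  have hre : 1 / 2 ≤ ‖pt x + (δ : ℂ)‖ := by
    have := Complex.abs_re_le_norm (pt x + (δ : ℂ))
    rw [pt_re', abs_of_pos (by linarith)] at this
    linarith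
  have hm1 : ‖pt x + (δ : ℂ) - 1‖ ≤ 3 * ‖pt x + (δ : ℂ)‖ := by
    have := norm_sub_le (pt x + (δ : ℂ)) 1
    rw [norm_one] at this
    linarith
  have hs0 : 0 < ‖pt x + (δ : ℂ)‖ := by linarith
  -- the upper bound for `ζ(2z)`
  have hzn : ‖pt x + (δ : ℂ)‖ ≤ R + 2 := by
    rw [hs]
    refine (norm_add_le _ _).trans ?_
    rw [norm_mul, Complex.norm_I, mul_one, Complex.norm_real, Complex.norm_real, Real.norm_eq_abs, Real.norm_eq_abs,
      abs_of_pos (by linarith : (0 : ℝ) < 1 / 2 + δ)]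
    linarith
  have h2z : 2 * (pt x + (δ : ℂ)) ≠ 1 := by
    intro h
    have := congrArg Complex.im h
    simp [pt] at this
    exact hx0 this
  have hup : Real.exp (-(T ^ A)) * ‖riemannZeta (2 * (pt x + (δ : ℂ)))‖ ≤ 22 * (R + 5) ^ 2 := by
    have h1 := SG.z1_growth (z := 2 * (pt x + (δ : ℂ))) (by
      rw [Complex.mul_re, pt_re']
      norm_num
      linarith)
    rw [Pool.Agent.H437R2.z1_of_ne h2z, norm_mul] at h1
    have h2 : 2 * Real.exp (-(T ^ A)) ≤ ‖2 * (pt x + (δ : ℂ)) - 1‖ := by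
      have h3 := Complex.abs_im_le_norm (2 * (pt x + (δ : ℂ)) - 1)
      have e : (2 * (pt x + (δ : ℂ)) - 1).im = 2 * x := by simp [pt]
      rw [e, abs_mul, abs_of_pos (by norm_num : (0 : ℝ) < 2)] at h3
      linarith
    have h4 : ‖2 * (pt x + (δ : ℂ))‖ + 1 ≤ 2 * (R + 5) := by
      rw [norm_mul, Complex.norm_ofNat]
      linarith
    have h5 : 2 * Real.exp (-(T ^ A)) * ‖riemannZeta (2 * (pt x + (δ : ℂ)))‖ ≤ 11 * (2 * (R + 5)) ^ 2 := by
      calc _ ≤ ‖2 * (pt x + (δ : ℂ)) - 1‖ * ‖riemannZeta (2 * (pt x + (δ : ℂ)))‖ :=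
            mul_le_mul_of_nonneg_right h2 (norm_nonneg _)
        _ ≤ 11 * (‖2 * (pt x + (δ : ℂ))‖ + 1) ^ 2 := h1
        _ ≤ 11 * (2 * (R + 5)) ^ 2 := by gcongr
    nlinarith
  have h5 : ‖riemannZeta₁ (pt x + δ)‖ * ‖lapC gL (pt x + δ)‖ ≤ 3 * ‖riemannZeta (2 * (pt x + (δ : ℂ)))‖ := by
    have h6 : ‖pt x + (δ : ℂ)‖ * (‖riemannZeta₁ (pt x + δ)‖ * ‖lapC gL (pt x + δ)‖) ≤
        ‖pt x + (δ : ℂ)‖ * (3 * ‖riemannZeta (2 * (pt x + (δ : ℂ)))‖) := by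
      rw [← mul_assoc, hid]
      calc ‖pt x + (δ : ℂ) - 1‖ * ‖riemannZeta (2 * (pt x + (δ : ℂ)))‖ ≤
          (3 * ‖pt x + (δ : ℂ)‖) * ‖riemannZeta (2 * (pt x + (δ : ℂ)))‖ :=
            mul_le_mul_of_nonneg_right hm1 (norm_nonneg _)
        _ = _ := by ring
    exact le_of_mul_le_mul_left h6 hs0
  obtain ⟨lam, hlam⟩ : ∃ lam : ℝ, lam = Real.log (R + 5) := ⟨_, rfl⟩
  rw [← hlam] at hlow2 ⊢
  have hlam1 : 1 ≤ lam := by
    rw [hlam, Real.le_log_iff_exp_le (by linarith)]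
    have := Real.exp_one_lt_d9
    linarith
  have hRl : R + 5 = Real.exp lam := by rw [hlam, Real.exp_log (by linarith)]
  have h66 : (66 : ℝ) ≤ Real.exp 6 := by
    have h1 := Real.exp_one_gt_d9
    have h2 : Real.exp 6 = (Real.exp 1) ^ 6 := by rw [← Real.exp_nat_mul]; norm_num
    rw [h2]
    have h3 : (2.7 : ℝ) ^ 6 ≤ Real.exp 1 ^ 6 := pow_le_pow_left₀ (by norm_num) (by linarith) 6
    refine le_trans ?_ h3
    norm_num
  have h7 : Real.exp (-(3300 * lam * (1 + T ^ A))) * (Real.exp (-(T ^ A)) * ‖lapC gL (pt x + δ)‖) ≤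
      66 * (R + 5) ^ 2 := by
    calc _ = Real.exp (-(T ^ A)) * (Real.exp (-(3300 * lam * (1 + T ^ A))) * ‖lapC gL (pt x + δ)‖) := by ring
      _ ≤ Real.exp (-(T ^ A)) * (‖riemannZeta₁ (pt x + δ)‖ * ‖lapC gL (pt x + δ)‖) :=
          mul_le_mul_of_nonneg_left (mul_le_mul_of_nonneg_right hlow2 (norm_nonneg _)) (Real.exp_pos _).le
      _ ≤ Real.exp (-(T ^ A)) * (3 * ‖riemannZeta (2 * (pt x + (δ : ℂ)))‖) :=
          mul_le_mul_of_nonneg_left h5 (Real.exp_pos _).le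
      _ = 3 * (Real.exp (-(T ^ A)) * ‖riemannZeta (2 * (pt x + (δ : ℂ)))‖) := by ring
      _ ≤ 66 * (R + 5) ^ 2 := by linarith
  have h8 : 66 * (R + 5) ^ 2 ≤ Real.exp (6 + 2 * lam) := by
    rw [hRl, Real.exp_add]
    have e : Real.exp lam ^ 2 = Real.exp (2 * lam) := by
      rw [← Real.exp_nat_mul]; norm_num
    rw [e]
    exact mul_le_mul_of_nonneg_right h66 (Real.exp_pos _).le
  have h9 := h7.trans h8
  rw [← mul_assoc, ← Real.exp_add, ← neg_add, Real.exp_neg, inv_mul_le_iff₀ (Real.exp_pos _), ← Real.exp_add] at h9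
  refine h9.trans (Real.exp_le_exp.2 ?_)
  nlinarith [mul_nonneg (by linarith : (0 : ℝ) ≤ lam - 1) hTA]

/-- at the zeros the Laplace transform is large -/
theorem lap_lowL (h : Tra) {t δ U w : ℝ} (ht : 16 ≤ t) (htU : t ≤ U) (hδ : 0 < δ) (hδ1 : δ ≤ 1 / 20)
    (hz : riemannZeta (1 / 2 + t * I) = 0) (hD : 0 < ‖deriv riemannZeta (1 / 2 + t * I)‖)
    (hw : w / 2 ≤ ‖riemannZeta (1 + 2 * t * I + 2 * δ)‖) :
    1 / 8 * (w / (t * (‖deriv riemannZeta (1 / 2 + t * I)‖ + 1100 * U * δ))) ≤ δ * ‖lapC gL (pt t + δ)‖ := by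
  have hpt : (1 / 2 + t * I : ℂ) = pt t := rfl
  rw [hpt] at hz hD ⊢
  have hT := taylor t hδ.le hδ1 hz
  obtain ⟨n1, n2⟩ := pt_norm t
  rw [abs_of_pos (by linarith)] at n1 n2
  obtain ⟨D, hDd⟩ : ∃ D : ℝ, D = ‖deriv riemannZeta (pt t)‖ := ⟨_, rfl⟩
  rw [← hDd] at hD hT ⊢
  have hx := h.id1 (z := pt t + δ) (by rw [pt_re']; linarith) (pt_ne_one (by linarith) δ)
  have e2 : 2 * (pt t + (δ : ℂ)) = 1 + 2 * t * I + 2 * δ := by
    unfold pt
    ring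
  rw [e2] at hx
  have him : t ≤ ‖pt t + (δ : ℂ) - 1‖ := by
    have := Complex.abs_im_le_norm (pt t + (δ : ℂ) - 1)
    have e : (pt t + (δ : ℂ) - 1).im = t := by simp [pt]
    rw [e, abs_of_pos (by linarith)] at this
    exact this
  have hsz : ‖pt t + (δ : ℂ)‖ ≤ 2 * ‖pt t + (δ : ℂ) - 1‖ := by
    have h5 : ‖pt t + (δ : ℂ)‖ ≤ ‖pt t + (δ : ℂ) - 1‖ + 1 := by
      calc ‖pt t + (δ : ℂ)‖ = ‖(pt t + (δ : ℂ) - 1) + 1‖ := by ring_nf
        _ ≤ _ := by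
          refine (norm_add_le _ _).trans ?_
          rw [norm_one]
    linarith
  have hN0 : 0 < ‖pt t + (δ : ℂ) - 1‖ := by linarith
  have hz1 : ‖riemannZeta₁ (pt t + δ)‖ ≤ 2 * t * δ * (D + 1100 * U * δ) := by
    refine hT.trans ?_
    have h1 : δ * (‖pt t‖ * D) ≤ δ * (2 * t * D) :=
      mul_le_mul_of_nonneg_left (mul_le_mul_of_nonneg_right (by linarith) hD.le) hδ.le
    have h2 : (‖pt t‖ + 2) ^ 2 ≤ 2 * t ^ 2 := by
      have h3 : ‖pt t‖ + 2 ≤ t + 3 := by linarith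
      have h4 : (‖pt t‖ + 2) ^ 2 ≤ (t + 3) ^ 2 := pow_le_pow_left₀ (by positivity) h3 2
      nlinarith
    have h5 : 1100 * (‖pt t‖ + 2) ^ 2 * δ ^ 2 ≤ 1100 * (2 * t ^ 2) * δ ^ 2 := by gcongr
    have h6 : 1100 * (2 * t ^ 2) * δ ^ 2 ≤ 2 * t * δ * (1100 * U * δ) := by
      have : t ^ 2 ≤ t * U := by nlinarith
      calc 1100 * (2 * t ^ 2) * δ ^ 2 ≤ 1100 * (2 * (t * U)) * δ ^ 2 := by gcongr
        _ = _ := by ring
    calc _ ≤ δ * (2 * t * D) + 2 * t * δ * (1100 * U * δ) := by linarith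
      _ = _ := by ring
  have hU0 : 0 < U := by linarith
  have hy : 0 < D + 1100 * U * δ := by positivity
  have hmain : ‖pt t + (δ : ℂ) - 1‖ * (w / 2) ≤ ‖pt t + (δ : ℂ) - 1‖ * (4 * (t * (D + 1100 * U * δ)) *
      (δ * ‖lapC gL (pt t + δ)‖)) := by
    calc ‖pt t + (δ : ℂ) - 1‖ * (w / 2) ≤ ‖pt t + (δ : ℂ) - 1‖ * ‖riemannZeta (1 + 2 * t * I + 2 * δ)‖ :=
          mul_le_mul_of_nonneg_left hw hN0.le
      _ = ‖pt t + (δ : ℂ)‖ * ‖riemannZeta₁ (pt t + δ)‖ * ‖lapC gL (pt t + δ)‖ := hx.symm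
      _ ≤ (2 * ‖pt t + (δ : ℂ) - 1‖) * (2 * t * δ * (D + 1100 * U * δ)) * ‖lapC gL (pt t + δ)‖ := by gcongr
      _ = _ := by ring
  have h1 := le_of_mul_le_mul_left hmain hN0
  have ht0 : 0 < t := by linarith
  rw [← mul_div_assoc, div_le_iff₀ (by positivity)]
  linarith

end Pool.Agent.H158.GL
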