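import Pool.Agent.H158.GL.Stm
import Pool.Graph.R_pool_sql_team_seeded_3997aac3.Q241.SPL.Gen

/-! # TR: the Laplace transform of the Liouville sum -/

set_option autoImplicit false

namespace Pool.Agent.H158.GL

open Finset Filter Topology Complex
open Pool.Agent.W263.BSD

namespace Tr

open Q241SPL Pool.Agent.H295R2

theorem meets_univ : Meets 0 (Set.univ : Set ℝ) :=
  ⟨0, fun x _ => ⟨x, Set.mem_univ x, by simp⟩⟩

theorem S_lam (y : ℝ) : S lam y = Lx y := rfl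

theorem G_lam (v : ℝ) : G lam v = gL v := rfl

/-- a one-sided bound puts the zeros on the line -/
theorem sup_le (s : ℝ) (hs : s = 1 ∨ s = -1)
    (h : ∀ ε : ℝ, 0 < ε → ∀ᶠ y : ℝ in atTop, s * Lx y ≤ y ^ (1 / 2 + ε)) : zetaSup ≤ 1 / 2 := by
  refine le_of_forall_pos_le_add fun ε hε => ?_
  obtain ⟨y₀, hy₀⟩ := eventually_atTop.1 (h ε hε)
  rcases hs with rfl | rfl
  · refine qd_lam.zero_free (θ := 0) one_pos meets_univ (c := 1 / 2 + ε) (C := 1) (by linarith)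
      ⟨y₀, fun y _ hy => ?_⟩
    have h1 := hy₀ y hy
    rw [one_mul] at h1
    rw [one_mul, S_lam]
    exact h1
  · refine qd_lam.neg.zero_free (θ := 0) one_pos meets_univ (c := 1 / 2 + ε) (C := 1) (by linarith)
      ⟨y₀, fun y _ hy => ?_⟩
    have h1 := hy₀ y hy
    rw [neg_one_mul] at h1
    rw [one_mul, S_neg, S_lam]
    exact h1

theorem fiG (hsup : zetaSup ≤ 1 / 2) {w : ℝ} (hw : 1 / 2 < w) : Fi (G lam) w :=
  qd_lam.dat.fiG (lt_of_le_of_lt hsup hw)

theorem lint (hsup : zetaSup ≤ 1 / 2) {w : ℝ} (hw : 1 / 2 < w) : LInt gL w := by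
  have h1 : MeasureTheory.IntegrableOn (fun v => G lam v * Real.exp (-(w * v))) (Set.Ici 0) := fiG hsup hw
  exact h1.mono_set Set.Ioi_subset_Ici_self

theorem lap_eq (z : ℂ) : lapC gL z = LL (G lam) z := by
  unfold lapC LL
  rw [MeasureTheory.integral_Ici_eq_integral_Ioi]
  rfl

end Tr

open Q241SPL Pool.Agent.H295R2 in
/-- **TR** -/
theorem t_TR : P_TR := by
  intro s hs h
  have hsup := Tr.sup_le s hs h
  refine ⟨fun w hw => Tr.lint hsup hw, fun ρ h0 h1 h2 => Zer_half hsup ⟨h0, h1, h2⟩, fun z hz hz1 => ?_⟩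
  have h1 := qd_lam.lap le_rfl (by norm_num) (fun σ hσ => Tr.fiG hsup hσ) z hz
  rw [← Zs_eq hz1] at h1
  have h2 : z - 1 ≠ 0 := sub_ne_zero.mpr hz1
  rw [Tr.lap_eq]
  refine mul_left_cancel₀ h2 ?_
  rw [← h1]
  ring

end Pool.Agent.H158.GL
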