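import Pool.Agent.H158.GL.Up
import Pool.Agent.H158.GL.Tr
import Pool.Agent.H158.GL.Lip
import Pool.Agent.H158.GL.Cnt
import Pool.Agent.H158.GL.Amps

set_option autoImplicit false

/-! A one-sided bound for the Liouville sum, of the order `√x (log log log x)^(5/4 - ε)`, produces close relations
between the ordinates. -/

namespace Pool.Agent.H158.GL

open Filter Topology Set MeasureTheory Complex
open Pool.Agent.W263.BSD Pool.Agent.Y853.HM Pool.Agent.H198.GM Pool.Agent.H158.GM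

theorem OneSidedL.pow {s B a : ℝ} (hB : 0 < B) (ha1 : a ≤ 5 / 4) (h : OneSidedL s B a) :
    ∀ ε : ℝ, 0 < ε → ∀ᶠ y : ℝ in atTop, s * Lx y ≤ y ^ (1 / 2 + ε) := by
  intro ε hε
  have h1 := (isLittleO_log_rpow_rpow_atTop (5 / 4 : ℝ) hε).bound (c := 1 / B) (by positivity)
  have hlll : Tendsto (fun x : ℝ => Real.log (Real.log (Real.log x))) atTop atTop :=
    Real.tendsto_log_atTop.comp (Real.tendsto_log_atTop.comp Real.tendsto_log_atTop)
  have hll : Tendsto (fun x : ℝ => Real.log (Real.log x)) atTop atTop :=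
    Real.tendsto_log_atTop.comp Real.tendsto_log_atTop
  filter_upwards [h, h1, hlll.eventually_ge_atTop 1, hll.eventually_ge_atTop 1, Real.tendsto_log_atTop.eventually_ge_atTop 1,
    eventually_gt_atTop 0] with x g1 g2 g3 g4 g5 g6
  refine g1.trans ?_
  rw [Real.norm_of_nonneg (Real.rpow_nonneg (by linarith) _), Real.norm_of_nonneg (Real.rpow_nonneg g6.le _)] at g2
  have h2 : Real.log (Real.log (Real.log x)) ≤ Real.log x := by
    have h3 := Real.log_le_sub_one_of_pos (show 0 < Real.log (Real.log x) by linarith)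
    have h4 := Real.log_le_sub_one_of_pos (show 0 < Real.log x by linarith)
    linarith
  have h3 : Real.log (Real.log (Real.log x)) ^ a ≤ Real.log x ^ (5 / 4 : ℝ) := by
    calc Real.log (Real.log (Real.log x)) ^ a ≤ Real.log (Real.log (Real.log x)) ^ (5 / 4 : ℝ) :=
          Real.rpow_le_rpow_of_exponent_le g3 ha1
      _ ≤ Real.log x ^ (5 / 4 : ℝ) := Real.rpow_le_rpow (by linarith) h2 (by norm_num)
  have h4 : B * Real.log x ^ (5 / 4 : ℝ) ≤ x ^ ε := by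
    have h5 := mul_le_mul_of_nonneg_left g2 hB.le
    rwa [← mul_assoc, mul_one_div, div_self hB.ne', one_mul] at h5
  rw [Real.rpow_add g6, ← Real.sqrt_eq_rpow]
  have hs0 := Real.sqrt_nonneg x
  calc B * (Real.sqrt x * Real.log (Real.log (Real.log x)) ^ a)
      = Real.sqrt x * (B * Real.log (Real.log (Real.log x)) ^ a) := by ring
    _ ≤ Real.sqrt x * (B * Real.log x ^ (5 / 4 : ℝ)) :=
        mul_le_mul_of_nonneg_left (mul_le_mul_of_nonneg_left h3 hB.le) hs0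
    _ ≤ Real.sqrt x * x ^ ε := mul_le_mul_of_nonneg_left h4 hs0

/-- **Main inequality.** -/
theorem mainL {A : ℝ} (hA : 1 ≤ A) {s B ε : ℝ} (hs : s = 1 ∨ s = -1) (hB : 0 < B) (hε : 0 < ε) (hε1 : ε ≤ 1)
    (h : OneSidedL s B (5 / 4 - ε)) {ε' : ℝ} (hε' : 0 < ε') :
    ∀ᶠ T : ℝ in atTop, ∃ R : Finset ℝ,
      (∀ t ∈ R, 0 < t ∧ t ≤ T ∧ riemannZeta (1 / 2 + t * I) = 0 ∧ deriv riemannZeta (1 / 2 + t * I) ≠ 0 ∧ Related A T t) ∧
      Real.log T ^ (5 / 4 - ε') ≤
        ∑ t ∈ R, ‖riemannZeta (1 + 2 * t * I)‖ / ‖(1 / 2 + t * I) * deriv riemannZeta (1 / 2 + t * I)‖ := by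
  classical
  obtain ⟨hg, hrh, hid⟩ := t_TR s hs (h.pow hB (by linarith))
  have htr : Tra := ⟨hrh, hid⟩
  obtain ⟨e, he⟩ : ∃ e : ℝ, e = min ε ε' / 2 := ⟨_, rfl⟩
  have hmin : 0 < min ε ε' := lt_min hε hε'
  have he0 : 0 < e := by rw [he]; linarith
  have heε : e < ε := by have := min_le_left ε ε'; rw [he]; linarith
  have heε' : e < ε' := by have := min_le_right ε ε'; rw [he]; linarith
  obtain ⟨C, hC, hup0⟩ := up_scaleL hs hB (by linarith) (by linarith) h htr hg hA (t₀ := 16) (by norm_num)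
  have hamp := t_AMPS t_CNT e he0 (by linarith)
  obtain ⟨CL, hCL, hlip⟩ := t_LIP
  have E10 : ∀ᶠ T : ℝ in atTop, 1100 * T ^ 3 ≤ Real.exp T := by
    have h1 := (isLittleO_rpow_exp_atTop 3).bound (c := 1 / 1100) (by norm_num)
    filter_upwards [h1, eventually_ge_atTop 0] with T h2 h4
    rw [Real.norm_of_nonneg (Real.rpow_nonneg h4 _), Real.norm_of_nonneg (Real.exp_pos T).le] at h2
    have e : T ^ (3 : ℝ) = T ^ 3 := by exact_mod_cast Real.rpow_natCast T 3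
    rw [e] at h2
    linarith
  have E11 : ∀ᶠ T : ℝ in atTop, 2 * CL * T ^ 3 ≤ Real.exp T := by
    have h1 := (isLittleO_rpow_exp_atTop 3).bound (c := 1 / (2 * CL)) (by positivity)
    filter_upwards [h1, eventually_ge_atTop 0] with T h2 h4
    rw [Real.norm_of_nonneg (Real.rpow_nonneg h4 _), Real.norm_of_nonneg (Real.exp_pos T).le] at h2
    have e : T ^ (3 : ℝ) = T ^ 3 := by exact_mod_cast Real.rpow_natCast T 3
    rw [e] at h2
    have h3 := mul_le_mul_of_nonneg_left h2 (show 0 ≤ 2 * CL by positivity)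
    rwa [← mul_assoc, mul_one_div, div_self (by positivity), one_mul] at h3
  have E12 : ∀ᶠ T : ℝ in atTop, 16 * C ≤ Real.log T ^ (ε - e) :=
    ((tendsto_rpow_atTop (by linarith)).comp Real.tendsto_log_atTop).eventually_ge_atTop _
  have E13 : ∀ᶠ T : ℝ in atTop, 4 ≤ Real.log T ^ (ε' - e) :=
    ((tendsto_rpow_atTop (by linarith)).comp Real.tendsto_log_atTop).eventually_ge_atTop _
  filter_upwards [hup0, hamp, E10, E11, E12, E13, eventually_ge_atTop (20 : ℝ),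
    Real.tendsto_log_atTop.eventually_ge_atTop 1] with T hT2 hT3 hT4 hT11 hT12 hT13 hT5 hlog1
  obtain ⟨S, hS, hcard, hsum⟩ := hT3
  have hT0 : 0 < T := by linarith
  have hlog0 : 0 < Real.log T := by linarith
  obtain ⟨S₁, hS₁⟩ : ∃ S₁ : Finset ℝ, S₁ = S.filter (fun t => ¬ Related A T t) := ⟨_, rfl⟩
  obtain ⟨R, hR⟩ : ∃ R : Finset ℝ, R = S.filter (fun t => Related A T t) := ⟨_, rfl⟩
  have hS₁S : S₁ ⊆ S := by rw [hS₁]; exact Finset.filter_subset _ _
  have hfree : Free A T S₁ := by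
    intro S' hS' ε' γ₀ hcl
    obtain ⟨t, ht⟩ : S'.Nonempty := Finset.card_pos.1 (by have := hcl.1; omega)
    have h1 := hS' ht
    rw [hS₁, Finset.mem_filter] at h1
    exact h1.2 ⟨S', ε', γ₀, ht, hcl⟩
  have hup := hT2 S₁ hfree (fun t ht => ⟨(hS t (hS₁S ht)).1, (hS t (hS₁S ht)).2.1, (hS t (hS₁S ht)).2.2.1⟩)
    (le_trans (by exact_mod_cast Finset.card_le_card hS₁S) hcard)
  obtain ⟨δ, hδ⟩ : ∃ δ : ℝ, δ = Real.exp (-(T ^ (A + 4))) := ⟨_, rfl⟩
  rw [← hδ] at hup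
  have hδ0 : 0 < δ := by rw [hδ]; exact Real.exp_pos _
  have hTA : T ≤ T ^ (A + 4) := by
    calc T = T ^ (1 : ℝ) := (Real.rpow_one T).symm
      _ ≤ T ^ (A + 4) := Real.rpow_le_rpow_of_exponent_le (by linarith) (by linarith)
  have hδi : δ⁻¹ = Real.exp (T ^ (A + 4)) := by rw [hδ, ← Real.exp_neg, neg_neg]
  have hδ20 : δ ≤ 1 / 20 := by
    rw [← inv_inv δ, one_div]
    refine inv_anti₀ (by norm_num) ?_
    rw [hδi]
    have := Real.add_one_le_exp (T ^ (A + 4))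
    linarith
  have hy := hsum (1100 * T * δ) (by positivity) (by
    rw [le_div_iff₀ (by positivity)]
    have h1 : 1100 * T * δ * T ^ 2 = 1100 * T ^ 3 * δ := by ring
    rw [h1, ← le_div_iff₀ hδ0, one_div, hδi]
    exact hT4.trans (Real.exp_le_exp.2 hTA))
  have hlogT : Real.log T ≤ T := by
    have := Real.log_le_sub_one_of_pos hT0
    linarith
  -- the value of zeta near `1 + 2it`
  have hw : ∀ t ∈ S, ‖riemannZeta (1 + 2 * t * I)‖ / 2 ≤ ‖riemannZeta (1 + 2 * t * I + 2 * δ)‖ := by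
    intro t ht
    obtain ⟨h16, htT, -, -, hlow⟩ := hS t ht
    have h1 := (hlip t δ (by linarith) hδ0.le (by linarith)).1
    have h2 : CL * t ^ 2 * δ ≤ 1 / 2 * (Real.log T)⁻¹ := by
      have h3 : 2 * CL * T ^ 3 * δ ≤ 1 := by
        rw [← le_div_iff₀ hδ0, one_div, hδi]
        exact hT11.trans (Real.exp_le_exp.2 hTA)
      have h4 : t ^ 2 ≤ T ^ 2 := pow_le_pow_left₀ (by linarith) htT 2
      have h5 : CL * t ^ 2 * δ ≤ CL * T ^ 2 * δ := by gcongr
      refine h5.trans ?_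
      rw [← div_eq_mul_inv, le_div_iff₀ hlog0]
      calc CL * T ^ 2 * δ * Real.log T ≤ CL * T ^ 2 * δ * T := mul_le_mul_of_nonneg_left hlogT (by positivity)
        _ = (2 * CL * T ^ 3 * δ) / 2 := by ring
        _ ≤ 1 / 2 := by linarith
    have h3 := norm_sub_norm_le (riemannZeta (1 + 2 * t * I)) (riemannZeta (1 + 2 * t * I + 2 * δ))
    rw [norm_sub_rev] at h3
    linarith
  have hlow : 1 / 8 * ∑ t ∈ S₁, ‖riemannZeta (1 + 2 * t * I)‖ /
      (t * (‖deriv riemannZeta (1 / 2 + t * I)‖ + 1100 * T * δ)) ≤ δ * ∑ t ∈ S₁, ‖lapC gL (pt t + δ)‖ := by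
    rw [Finset.mul_sum, Finset.mul_sum]
    exact Finset.sum_le_sum fun t ht =>
      lap_lowL htr (hS t (hS₁S ht)).1 (hS t (hS₁S ht)).2.1 hδ0 hδ20 (hS t (hS₁S ht)).2.2.1 (hS t (hS₁S ht)).2.2.2.1
        (hw t (hS₁S ht))
  have hsplit : ∑ t ∈ R, ‖riemannZeta (1 + 2 * t * I)‖ / (t * (‖deriv riemannZeta (1 / 2 + t * I)‖ + 1100 * T * δ)) +
      ∑ t ∈ S₁, ‖riemannZeta (1 + 2 * t * I)‖ / (t * (‖deriv riemannZeta (1 / 2 + t * I)‖ + 1100 * T * δ)) =
      ∑ t ∈ S, ‖riemannZeta (1 + 2 * t * I)‖ / (t * (‖deriv riemannZeta (1 / 2 + t * I)‖ + 1100 * T * δ)) := by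
    rw [hR, hS₁]
    exact Finset.sum_filter_add_sum_filter_not S _ _
  obtain ⟨Y, hY⟩ : ∃ Y : ℝ, Y = Real.log T ^ (5 / 4 - e) := ⟨_, rfl⟩
  have hY0 : 0 < Y := by rw [hY]; exact Real.rpow_pos_of_pos hlog0 _
  have hYε : 16 * (C * Real.log T ^ (5 / 4 - ε)) ≤ Y := by
    have h1 : Y = Real.log T ^ (ε - e) * Real.log T ^ (5 / 4 - ε) := by
      rw [hY, ← Real.rpow_add hlog0]
      congr 1
      ring
    rw [h1, ← mul_assoc]
    exact mul_le_mul_of_nonneg_right hT12 (Real.rpow_nonneg hlog0.le _)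
  have hYε' : 4 * Real.log T ^ (5 / 4 - ε') ≤ Y := by
    have h1 : Y = Real.log T ^ (ε' - e) * Real.log T ^ (5 / 4 - ε') := by
      rw [hY, ← Real.rpow_add hlog0]
      congr 1
      ring
    rw [h1]
    exact mul_le_mul_of_nonneg_right hT13 (Real.rpow_nonneg hlog0.le _)
  rw [← hY] at hy
  have hRlow : 1 / 2 * Y ≤ ∑ t ∈ R, ‖riemannZeta (1 + 2 * t * I)‖ /
      (t * (‖deriv riemannZeta (1 / 2 + t * I)‖ + 1100 * T * δ)) := by
    linarith
  have hRS : ∀ t ∈ R, t ∈ S ∧ Related A T t := by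
    intro t ht
    rw [hR, Finset.mem_filter] at ht
    exact ht
  refine ⟨R, fun t ht => ⟨by linarith [(hS t (hRS t ht).1).1], (hS t (hRS t ht).1).2.1, (hS t (hRS t ht).1).2.2.1,
    norm_pos_iff.1 (hS t (hRS t ht).1).2.2.2.1, (hRS t ht).2⟩, ?_⟩
  have hterm : ∀ t ∈ R, ‖riemannZeta (1 + 2 * t * I)‖ / (t * (‖deriv riemannZeta (1 / 2 + t * I)‖ + 1100 * T * δ)) ≤
      2 * (‖riemannZeta (1 + 2 * t * I)‖ / ‖(1 / 2 + t * I) * deriv riemannZeta (1 / 2 + t * I)‖) := by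
    intro t ht
    have h16 := (hS t (hRS t ht).1).1
    have hD := (hS t (hRS t ht).1).2.2.2.1
    have hn := (pt_norm t).2
    rw [abs_of_pos (by linarith)] at hn
    have hn0 : 0 < ‖(1 / 2 + t * I : ℂ)‖ := by
      have := (pt_norm t).1
      rw [abs_of_pos (by linarith)] at this
      exact lt_of_lt_of_le (by linarith) this
    obtain ⟨w, hw'⟩ : ∃ w : ℝ, w = ‖riemannZeta (1 + 2 * t * I)‖ := ⟨_, rfl⟩
    have hw0 : 0 ≤ w := by rw [hw']; exact norm_nonneg _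
    rw [← hw', norm_mul, ← mul_div_assoc, div_le_div_iff₀ (by positivity) (by positivity)]
    have h1 : ‖(1 / 2 + t * I : ℂ)‖ ≤ 2 * t := le_trans hn (by linarith)
    have h2 : ‖(1 / 2 + t * I : ℂ)‖ * ‖deriv riemannZeta (1 / 2 + t * I)‖ ≤
        2 * (t * (‖deriv riemannZeta (1 / 2 + t * I)‖ + 1100 * T * δ)) := by
      calc ‖(1 / 2 + t * I : ℂ)‖ * ‖deriv riemannZeta (1 / 2 + t * I)‖ ≤
          2 * t * ‖deriv riemannZeta (1 / 2 + t * I)‖ := mul_le_mul_of_nonneg_right h1 hD.le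
        _ ≤ 2 * t * (‖deriv riemannZeta (1 / 2 + t * I)‖ + 1100 * T * δ) := by
            refine mul_le_mul_of_nonneg_left ?_ (by linarith)
            have : 0 ≤ 1100 * T * δ := by positivity
            linarith
        _ = 2 * (t * (‖deriv riemannZeta (1 / 2 + t * I)‖ + 1100 * T * δ)) := by ring
    calc w * (‖(1 / 2 + t * I : ℂ)‖ * ‖deriv riemannZeta (1 / 2 + t * I)‖) ≤
        w * (2 * (t * (‖deriv riemannZeta (1 / 2 + t * I)‖ + 1100 * T * δ))) := mul_le_mul_of_nonneg_left h2 hw0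
      _ = _ := by ring
  have hsum2 := Finset.sum_le_sum hterm
  rw [← Finset.mul_sum] at hsum2
  linarith

end Pool.Agent.H158.GL
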